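import Pool.Agent.H87.SA2.PERM
import Pool.Agent.H87.SA2.PDE

/-!
# MP_821da1_nt: explicit constants for the Puiseux expansions -- definitions

`Sized f d m B`: `f ∈ ℤ[t][X]` monic of degree `d ≥ 1` in `X`, of degree `≤ m` in `t`,
coefficients at most `B` in absolute value.
`Exps f d e y`: `f(T^e, X) = ∏ (X - y_i(T))`, distinct series with algebraic coefficients.
`Sg y`: the families `(p(y_(i,0), y_(i,1), ...))_i`, `p` an integer polynomial.
`tru j x`: the truncation `∑_{k<j} x_k T^k`.
`cw f e j l r x`: the coefficient of `T^l` in `T^(j r) F^[r](tru j x)`, `F = f(T^e, X)`, where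
`F^[r]` is the Hasse derivative; these are the coefficients of `F(tru j x + T^j Z)` at `T^l Z^r`.
-/

namespace Pool.Agent.H87.SX

open Finset Polynomial Pool.Agent.H87.SA2

/-- size conditions on `f` -/
structure Sized (f : ℤ[X][X]) (d m B : ℕ) : Prop where
  monic : f.Monic
  deg : f.natDegree = d
  d1 : 1 ≤ d
  mdeg : ∀ j, (f.coeff j).natDegree ≤ m
  B2 : 2 ≤ B
  bd : ∀ j l, |(f.coeff j).coeff l| ≤ (B : ℤ)

/-- the expansions at `t = 0`, `t = T^e`, of the roots of `f` -/
structure Exps (f : ℤ[X][X]) (d e : ℕ) (y : Fin d → PowerSeries ℂ) : Prop where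
  e1 : 1 ≤ e
  split : f.map (tq e 1) = ∏ i, (X - C (y i))
  inj : Function.Injective y
  alg : ∀ i k, IsAlgebraic ℤ (PowerSeries.coeff k (y i))

/-- the families of integer polynomial expressions in the coefficients of `y i` -/
noncomputable def Sg {d : ℕ} (y : Fin d → PowerSeries ℂ) : Subalgebra ℤ (Fin d → ℂ) :=
  Algebra.adjoin ℤ (Set.range fun k : ℕ => fun i : Fin d => PowerSeries.coeff k (y i))

/-- truncation -/
noncomputable def tru (j : ℕ) (x : PowerSeries ℂ) : PowerSeries ℂ :=
  PowerSeries.mk fun k => if k < j then PowerSeries.coeff k x else 0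

/-- the coefficients of `F(tru j x + T^j Z)` -/
noncomputable def cw (f : ℤ[X][X]) (e j l r : ℕ) (x : PowerSeries ℂ) : ℂ :=
  PowerSeries.coeff l (PowerSeries.X ^ (j * r) * (hasseDeriv r (f.map (tq e 1))).eval (tru j x))

/-- a bound for the heights occurring in the Newton process -/
def cK (d m B : ℕ) : ℕ := 2 * ((d + 1) * 2 ^ d * ((m + 1) * B))

/-- the bound after `S` steps -/
def cM (d m B S : ℕ) : ℕ := cK d m B ^ ((10 * (d + 1) ^ 3) ^ S)

end Pool.Agent.H87.SX
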