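import Pool.Agent.H87.SX.Defs
import Pool.Agent.H87.SA2.GALA

/-! # [SX-XCJ] Conjugates of expressions in the Puiseux coefficients, and Liouville's inequality

`AA = algebraicClosure ℚ ℂ` (`Pool/Agent/H87/SA2/PERM.lean`, imported).
`sg_conj`. Let `τ : AA →+* ℂ` be a ring homomorphism. The coefficients of `y i` are algebraic; let
`η i : PowerSeries AA` have these coefficients. By `Pool.Agent.H87.SA2.perm_aux` (imported; `Z = ℤ[X]`,
`A = PowerSeries AA`, `B = PowerSeries ℂ`, `φ = eval₂RingHom (Int.castRingHom _) (PowerSeries.X ^ e)`,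
`τ, ι` the maps induced on coefficients by `τ` and by the inclusion, `P = f`; the hypothesis
`f.map φ = ∏ (X - C (η i))` follows from `h.split`, the map `PowerSeries AA → PowerSeries ℂ` being
injective; see also `perm_R` in the same file for a very similar argument) there is a permutation
`π` of `Fin d` with `τ (y i)_k = (y (π i))_k` for all `i`, `k`. By induction
(`Algebra.adjoin_induction`) `τ (w i) = w (π i)` for all `w ∈ Sg y` (and `w i ∈ AA`). If `z` is a
root of `minpoly ℚ (w i)`, there is `τ` with `τ (w i) = z`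
(`IntermediateField.exists_algHom_of_splits_of_aeval`, used in `galA_mem`,
`Pool/Agent/H87/SA2/GALA.lean`), so `z = w (π i)`. -/

namespace Pool.Agent.H87.SX

open Finset Polynomial Pool.Agent.H87.SA2

variable {f : ℤ[X][X]} {d e : ℕ} {y : Fin d → PowerSeries ℂ}

theorem xcj_mem (h : Exps f d e y) {w : Fin d → ℂ} (hw : w ∈ Sg y) (i : Fin d) : w i ∈ AA := by
  unfold Sg at hw
  induction hw using Algebra.adjoin_induction with
  | mem w hw =>
    obtain ⟨k, rfl⟩ := hw
    rw [mem_algebraicClosure_iff]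
    exact (h.alg i k).extendScalars Int.cast_injective
  | algebraMap r =>
    have h1 : (algebraMap ℤ (Fin d → ℂ) r) i = (r : ℂ) := by simp
    rw [h1]
    exact intCast_mem AA r
  | add w1 w2 _ _ h1 h2 => exact add_mem h1 h2
  | mul w1 w2 _ _ h1 h2 => exact mul_mem h1 h2

theorem xcj_perm (h : Exps f d e y) (σ : AA →+* ℂ) :
    ∃ π : Equiv.Perm (Fin d), ∀ (i : Fin d) (k : ℕ) (a : AA),
      (a : ℂ) = PowerSeries.coeff k (y i) → σ a = PowerSeries.coeff k (y (π i)) := by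
  have hA : ∀ i k, PowerSeries.coeff k (y i) ∈ AA := by
    intro i k
    rw [mem_algebraicClosure_iff]
    exact (h.alg i k).extendScalars Int.cast_injective
  obtain ⟨ι, hι⟩ : ∃ ι : AA →+* ℂ, ι = algebraMap AA ℂ := ⟨_, rfl⟩
  have hιa : ∀ a : AA, ι a = (a : ℂ) := by
    intro a
    rw [hι]
    rfl
  obtain ⟨ξ, hξ⟩ : ∃ ξ : Fin d → PowerSeries AA,
    ξ = fun i => PowerSeries.mk fun k => (⟨PowerSeries.coeff k (y i), hA i k⟩ : AA) := ⟨_, rfl⟩
  have hξc : ∀ i k, PowerSeries.coeff k (ξ i) = (⟨PowerSeries.coeff k (y i), hA i k⟩ : AA) := by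
    intro i k
    rw [hξ, PowerSeries.coeff_mk]
  have hξi : ∀ i, PowerSeries.map ι (ξ i) = y i := by
    intro i
    ext k
    rw [PowerSeries.coeff_map, hξc, hιa]
  have hξinj : Function.Injective ξ := by
    intro i j hij
    apply h.inj
    rw [← hξi i, ← hξi j, hij]
  have hιinj : Function.Injective (PowerSeries.map ι) := PowerSeries.map_injective ι ι.injective
  have hσinj : Function.Injective (PowerSeries.map σ) := PowerSeries.map_injective σ σ.injective
  obtain ⟨φ, hφ⟩ : ∃ φ : ℤ[X] →+* PowerSeries AA, φ = eval₂RingHom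
    (Int.castRingHom (PowerSeries AA)) ((PowerSeries.C ((1 : ℕ) : AA) * PowerSeries.X) ^ e) :=
    ⟨_, rfl⟩
  have hcomp : ∀ τ : AA →+* ℂ, (PowerSeries.map τ).comp φ = tq e 1 := by
    intro τ
    apply Polynomial.ringHom_ext
    · intro a
      simp [tq]
    · rw [hφ, RingHom.comp_apply, coe_eval₂RingHom, tq, coe_eval₂RingHom, eval₂_X, eval₂_X,
        map_pow, map_mul, PowerSeries.map_X, PowerSeries.map_C, map_natCast]
  have hsplit : f.map φ = ∏ i, (X - C (ξ i)) := by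
    apply Polynomial.map_injective (PowerSeries.map ι) hιinj
    rw [Polynomial.map_map, hcomp, h.split, Polynomial.map_prod]
    refine Finset.prod_congr rfl fun i _ => ?_
    rw [Polynomial.map_sub, Polynomial.map_X, Polynomial.map_C, hξi]
  obtain ⟨π, hπ⟩ := perm_aux φ (PowerSeries.map σ) (PowerSeries.map ι)
    (by rw [hcomp, hcomp]) hσinj ξ hξinj f hsplit
  refine ⟨π, fun i k a ha => ?_⟩
  have h1 := congrArg (PowerSeries.coeff k) (hπ i)
  rw [PowerSeries.coeff_map, PowerSeries.coeff_map, hξc, hξc, hιa] at h1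
  have h2 : a = (⟨PowerSeries.coeff k (y i), hA i k⟩ : AA) := Subtype.ext ha
  rw [h2]
  exact h1

theorem xcj_act (h : Exps f d e y) (σ : AA →+* ℂ) :
    ∃ π : Equiv.Perm (Fin d), ∀ w ∈ Sg y, ∀ (i : Fin d) (a : AA),
      (a : ℂ) = w i → σ a = w (π i) := by
  obtain ⟨π, hπ⟩ := xcj_perm h σ
  refine ⟨π, fun w hw => ?_⟩
  have hw' := hw
  unfold Sg at hw
  induction hw using Algebra.adjoin_induction with
  | mem w hw =>
    obtain ⟨k, rfl⟩ := hw
    intro i a ha
    exact hπ i k a ha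
  | algebraMap r =>
    intro i a ha
    have h1 : ∀ j, (algebraMap ℤ (Fin d → ℂ) r) j = (r : ℂ) := by intro j; simp
    rw [h1] at ha ⊢
    have h2 : a = (r : AA) := Subtype.ext (by rw [ha]; simp)
    rw [h2, map_intCast]
  | add w1 w2 hw1 hw2 h1 h2 =>
    intro i a ha
    have e1 : w1 ∈ Sg y := hw1
    have e2 : w2 ∈ Sg y := hw2
    have h3 : a = ⟨w1 i, xcj_mem h e1 i⟩ + ⟨w2 i, xcj_mem h e2 i⟩ := Subtype.ext ha
    rw [h3, map_add, h1 e1 i _ rfl, h2 e2 i _ rfl]
    rfl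
  | mul w1 w2 hw1 hw2 h1 h2 =>
    intro i a ha
    have e1 : w1 ∈ Sg y := hw1
    have e2 : w2 ∈ Sg y := hw2
    have h3 : a = ⟨w1 i, xcj_mem h e1 i⟩ * ⟨w2 i, xcj_mem h e2 i⟩ := Subtype.ext ha
    rw [h3, map_mul, h1 e1 i _ rfl, h2 e2 i _ rfl]
    rfl

theorem sg_alg (h : Exps f d e y) {w : Fin d → ℂ} (hw : w ∈ Sg y) (i : Fin d) :
    IsAlgebraic ℚ (w i) := by
  exact mem_algebraicClosure_iff.1 (xcj_mem h hw i)

theorem sg_conj (h : Exps f d e y) {w : Fin d → ℂ} (hw : w ∈ Sg y) (i : Fin d) (z : ℂ)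
    (hz : aeval z (minpoly ℚ (w i)) = 0) : ∃ j, z = w j := by
  have hmem := xcj_mem h hw i
  obtain ⟨a, ha⟩ : ∃ a : AA, (a : ℂ) = w i := ⟨⟨w i, hmem⟩, rfl⟩
  have hmin : minpoly ℚ a = minpoly ℚ (w i) := by
    have h1 := minpoly.algebraMap_eq (A := ℚ) (algebraMap AA ℂ).injective a
    rw [← h1]
    congr 1
  rw [← hmin] at hz
  obtain ⟨φ, hφ⟩ := IntermediateField.exists_algHom_of_splits_of_aeval (F := ℚ)
    (E := AA) (K := ℂ) (fun z => ⟨algC_int z, IsAlgClosed.splits _⟩) hz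
  obtain ⟨π, hπ⟩ := xcj_act h (φ : AA →+* ℂ)
  refine ⟨π i, ?_⟩
  rw [← hφ]
  exact hπ w hw i a ha

end Pool.Agent.H87.SX
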