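import Pool.Agent.H87.SX.Defs

/-! # [SX-XCM] The coefficients of `F(tru j x + T^j Z)`: membership and integrality

`F = f.map (tq e 1)`, `tq e 1 : t ↦ (C 1 * X)^e`. The coefficient of `T^l` in `tq e 1 p` is
`p.coeff (l / e)` if `e ∣ l` and `0` otherwise (see `tq_coeff` in `Pool/Agent/H87/SA2/PDE.lean` for the
first half), in particular an integer, nonzero for at most `m + 1` values of `l` if
`p.natDegree ≤ m`. `(hasseDeriv r F).eval u = ∑_{b ≤ d} (b choose r) F_b u^(b - r)`
(`Polynomial.hasseDeriv_apply`, `hasseDeriv_coeff`).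
`tru_pow_bd`: `‖coeff k (u * v)‖ ≤ j A sup‖v‖` for `u = tru j x` (at most `j` nonzero coefficients,
`PowerSeries.coeff_mul`, antidiagonal), induction on `p`.
`cw_mem`: all coefficients of `tru j (y i)` are in `Sg y` (as families), sums and products
(`PowerSeries.coeff_mul`, `sum_mem`, `mul_mem`; integers: `Subalgebra.intCast_mem`/`zsmul_mem`): prove by
induction on `p` that the families `i ↦ coeff k (tru j (y i) ^ p)` are in `Sg y`.
`cw_int`: `q^d (hasseDeriv r F).eval u = ∑_b (b choose r) F_b q^(d-(b-r)) (q u)^(b-r)`, all coefficients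
integral.
`cw_bd`: `∑_b (b choose r) (m + 1) B (j A + 1)^(b - r)`, `(b choose r) ≤ 2^b ≤ 2^d`. -/

namespace Pool.Agent.H87.SX

open Finset Polynomial Pool.Agent.H87.SA2

theorem xcm_hasse_eval {R : Type*} [CommSemiring R] (F : R[X]) (r : ℕ) (u : R) :
    (hasseDeriv r F).eval u =
      ∑ b ∈ F.support, ((b.choose r : ℕ) : R) * F.coeff b * u ^ (b - r) := by
  rw [hasseDeriv_apply, Polynomial.sum_def, eval_finsetSum]
  refine Finset.sum_congr rfl fun b _ => ?_
  rw [eval_monomial]

/-- integer coefficients of `tq e 1 p` -/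
theorem xcm_tq_int (e : ℕ) (p : ℤ[X]) :
    ∃ w : PowerSeries ℤ, tq e 1 p = PowerSeries.map (Int.castRingHom ℂ) w := by
  have h : tq e 1 = (PowerSeries.map (Int.castRingHom ℂ)).comp
      (eval₂RingHom (Int.castRingHom (PowerSeries ℤ)) (PowerSeries.X ^ e)) := by
    apply Polynomial.ringHom_ext
    · intro a
      simp [tq]
    · simp [tq]
  exact ⟨_, by rw [h]; rfl⟩

section fam

variable {d : ℕ} {S : Subalgebra ℤ (Fin d → ℂ)}

/-- all coefficients of the family are in `S` -/
def InS (S : Subalgebra ℤ (Fin d → ℂ)) (u : Fin d → PowerSeries ℂ) : Prop :=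
  ∀ k, (fun i => PowerSeries.coeff k (u i)) ∈ S

theorem InS.mul {u v : Fin d → PowerSeries ℂ} (hu : InS S u) (hv : InS S v) :
    InS S (fun i => u i * v i) := by
  intro k
  have h : (fun i => PowerSeries.coeff k (u i * v i)) =
      ∑ p ∈ antidiagonal k, (fun i => PowerSeries.coeff p.1 (u i)) *
        (fun i => PowerSeries.coeff p.2 (v i)) := by
    funext i
    rw [PowerSeries.coeff_mul]
    simp
  rw [h]
  exact sum_mem fun p _ => mul_mem (hu p.1) (hv p.2)

theorem InS.const (w : PowerSeries ℤ) :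
    InS S (fun _ => PowerSeries.map (Int.castRingHom ℂ) w) := by
  intro k
  have h : (fun _ : Fin d => PowerSeries.coeff k (PowerSeries.map (Int.castRingHom ℂ) w)) =
      algebraMap ℤ (Fin d → ℂ) (PowerSeries.coeff k w) := by
    funext i
    simp
  rw [h]
  exact S.algebraMap_mem _

theorem InS.pow {u : Fin d → PowerSeries ℂ} (hu : InS S u) (p : ℕ) :
    InS S (fun i => u i ^ p) := by
  induction p with
  | zero =>
    have h := InS.const (S := S) 1
    simpa using h
  | succ p ih =>
    have h := ih.mul hu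
    simpa [pow_succ] using h

theorem InS.sum {ι : Type*} (s : Finset ι) {u : ι → Fin d → PowerSeries ℂ}
    (hu : ∀ b ∈ s, InS S (u b)) : InS S (fun i => ∑ b ∈ s, u b i) := by
  intro k
  have h : (fun i => PowerSeries.coeff k (∑ b ∈ s, u b i)) =
      ∑ b ∈ s, (fun i => PowerSeries.coeff k (u b i)) := by
    funext i
    rw [map_sum, Finset.sum_apply]
  rw [h]
  exact sum_mem fun b hb => hu b hb k

end fam

theorem cw_mem {d : ℕ} (y : Fin d → PowerSeries ℂ) (f : ℤ[X][X]) (e j l r : ℕ) :
    (fun i => cw f e j l r (y i)) ∈ Sg y := by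
  have htru : InS (Sg y) (fun i => tru j (y i)) := by
    intro k
    simp only [tru, PowerSeries.coeff_mk]
    by_cases hk : k < j
    · simp only [if_pos hk]
      exact Algebra.subset_adjoin ⟨k, rfl⟩
    · simp only [if_neg hk]
      exact zero_mem _
  have hX : InS (Sg y) (fun _ => (PowerSeries.X ^ (j * r) : PowerSeries ℂ)) := by
    have h := InS.const (S := Sg y) (PowerSeries.X ^ (j * r))
    simpa using h
  have hF : InS (Sg y) (fun i => (hasseDeriv r (f.map (tq e 1))).eval (tru j (y i))) := by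
    have h1 : (fun i => (hasseDeriv r (f.map (tq e 1))).eval (tru j (y i))) =
        fun i => ∑ b ∈ (f.map (tq e 1)).support,
          ((b.choose r : ℕ) : PowerSeries ℂ) * (f.map (tq e 1)).coeff b * tru j (y i) ^ (b - r) := by
      funext i
      rw [xcm_hasse_eval]
    rw [h1]
    refine InS.sum _ fun b _ => ?_
    refine InS.mul (InS.mul ?_ ?_) (htru.pow _)
    · have h := InS.const (S := Sg y) ((b.choose r : ℕ) : PowerSeries ℤ)
      simpa using h
    · rw [coeff_map]
      obtain ⟨w, hw⟩ := xcm_tq_int e (f.coeff b)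
      rw [hw]
      exact InS.const w
  exact (hX.mul hF) l

/-- all coefficients of `u` have denominator `q^n` -/
def DenI (q n : ℕ) (u : PowerSeries ℂ) : Prop :=
  ∀ k, IsIntegral ℤ ((q : ℂ) ^ n * PowerSeries.coeff k u)

theorem DenI.mul {q a b : ℕ} {u v : PowerSeries ℂ} (hu : DenI q a u) (hv : DenI q b v) :
    DenI q (a + b) (u * v) := by
  intro k
  rw [PowerSeries.coeff_mul, Finset.mul_sum]
  refine IsIntegral.sum _ fun p _ => ?_
  have h : (q : ℂ) ^ (a + b) * (PowerSeries.coeff p.1 u * PowerSeries.coeff p.2 v) =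
      ((q : ℂ) ^ a * PowerSeries.coeff p.1 u) * ((q : ℂ) ^ b * PowerSeries.coeff p.2 v) := by
    ring
  rw [h]
  exact (hu p.1).mul (hv p.2)

theorem DenI.const (q : ℕ) (w : PowerSeries ℤ) :
    DenI q 0 (PowerSeries.map (Int.castRingHom ℂ) w) := by
  intro k
  have h : (q : ℂ) ^ 0 * PowerSeries.coeff k (PowerSeries.map (Int.castRingHom ℂ) w) =
      algebraMap ℤ ℂ (PowerSeries.coeff k w) := by
    simp
  rw [h]
  exact isIntegral_algebraMap

theorem DenI.pow {q a : ℕ} {u : PowerSeries ℂ} (hu : DenI q a u) (p : ℕ) :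
    DenI q (a * p) (u ^ p) := by
  induction p with
  | zero =>
    have h := DenI.const q 1
    simpa using h
  | succ p ih =>
    have h := ih.mul hu
    rw [pow_succ, Nat.mul_succ]
    exact h

theorem DenI.mono {q a b : ℕ} {u : PowerSeries ℂ} (hu : DenI q a u) (hab : a ≤ b) :
    DenI q b u := by
  intro k
  obtain ⟨c, rfl⟩ := Nat.exists_eq_add_of_le hab
  have h : (q : ℂ) ^ (a + c) * PowerSeries.coeff k u =
      (algebraMap ℤ ℂ ((q : ℤ) ^ c)) * ((q : ℂ) ^ a * PowerSeries.coeff k u) := by
    simp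
    ring
  rw [h]
  exact isIntegral_algebraMap.mul (hu k)

theorem DenI.sum {ι : Type*} {q a : ℕ} (s : Finset ι) {u : ι → PowerSeries ℂ}
    (hu : ∀ b ∈ s, DenI q a (u b)) : DenI q a (∑ b ∈ s, u b) := by
  intro k
  rw [map_sum, Finset.mul_sum]
  exact IsIntegral.sum _ fun b hb => hu b hb k

theorem cw_int {f : ℤ[X][X]} {d : ℕ} (hd : f.natDegree ≤ d) (e j l r q : ℕ)
    (x : PowerSeries ℂ) (hx : ∀ k < j, IsIntegral ℤ ((q : ℂ) * PowerSeries.coeff k x)) :
    IsIntegral ℤ ((q : ℂ) ^ d * cw f e j l r x) := by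
  have htru : DenI q 1 (tru j x) := by
    intro k
    simp only [tru, PowerSeries.coeff_mk]
    by_cases hk : k < j
    · rw [if_pos hk, pow_one]
      exact hx k hk
    · rw [if_neg hk, mul_zero]
      exact isIntegral_zero
  have hX : DenI q 0 (PowerSeries.X ^ (j * r) : PowerSeries ℂ) := by
    have h := DenI.const q (PowerSeries.X ^ (j * r))
    simpa using h
  have hF : DenI q d ((hasseDeriv r (f.map (tq e 1))).eval (tru j x)) := by
    rw [xcm_hasse_eval]
    refine DenI.sum _ fun b hb => ?_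
    have hbd : b ≤ d := by
      have h1 := le_natDegree_of_mem_supp b hb
      have h2 : (f.map (tq e 1)).natDegree ≤ f.natDegree := natDegree_map_le
      omega
    have h1 : DenI q 0 ((b.choose r : ℕ) : PowerSeries ℂ) := by
      have h := DenI.const q ((b.choose r : ℕ) : PowerSeries ℤ)
      simpa using h
    have h2 : DenI q 0 ((f.map (tq e 1)).coeff b) := by
      rw [coeff_map]
      obtain ⟨w, hw⟩ := xcm_tq_int e (f.coeff b)
      rw [hw]
      exact DenI.const q w
    exact ((h1.mul h2).mul (htru.pow (b - r))).mono (by omega)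
  have h := (hX.mul hF) l
  rw [Nat.zero_add] at h
  exact h

end Pool.Agent.H87.SX
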