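import Pool.Agent.H87.SX.Defs

/-! # [SX-XCW] The coefficients of `F(tru j x + T^j Z)`: size

`F = f.map (tq e 1)`, `tq e 1 : t ↦ (C 1 * X)^e`. The coefficient of `T^l` in `tq e 1 p` is
`p.coeff (l / e)` if `e ∣ l` and `0` otherwise (see `tq_coeff` in `Pool/Agent/H87/SA2/PDE.lean` for the
first half), in particular an integer, nonzero for at most `m + 1` values of `l` if
`p.natDegree ≤ m`. `(hasseDeriv r F).eval u = ∑_{b ≤ d} (b choose r) F_b u^(b - r)`
(`Polynomial.hasseDeriv_apply`, `hasseDeriv_coeff`).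
`tru_pow_bd`: `‖coeff k (u * v)‖ ≤ j A sup‖v‖` for `u = tru j x` (at most `j` nonzero coefficients,
`PowerSeries.coeff_mul`, antidiagonal), induction on `p`.
`cw_mem`: all coefficients of `tru j (y i)` are in `Sg y` (as families), sums and products
(`PowerSeries.coeff_mul`, `sum_mem`, `mul_mem`; integers: `Subalgebra.intCast_mem`/`zsmul_mem`): prove by
induction on `p` that the families `i ↦ coeff k (tru j (y i) ^ p)` are in `Sg y`.
`cw_int`: `q^d (hasseDeriv r F).eval u = ∑_b (b choose r) F_b q^(d-(b-r)) (q u)^(b-r)`, all coefficients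
integral.
`cw_bd`: `∑_b (b choose r) (m + 1) B (j A + 1)^(b - r)`, `(b choose r) ≤ 2^b ≤ 2^d`. -/

namespace Pool.Agent.H87.SX

open Finset Polynomial Pool.Agent.H87.SA2

theorem tru_pow_bd {j : ℕ} {x : PowerSeries ℂ} {A : ℝ} (hA : 1 ≤ A)
    (hx : ∀ k < j, ‖PowerSeries.coeff k x‖ ≤ A) (p k : ℕ) :
    ‖PowerSeries.coeff k (tru j x ^ p)‖ ≤ (j * A + 1) ^ p := by
  sorry

theorem cw_bd {f : ℤ[X][X]} {d m B : ℕ} (hf : Sized f d m B) {e : ℕ} (he : 1 ≤ e) (j l r : ℕ)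
    (x : PowerSeries ℂ) {A : ℝ} (hA : 1 ≤ A) (hx : ∀ k < j, ‖PowerSeries.coeff k x‖ ≤ A) :
    ‖cw f e j l r x‖ ≤ (d + 1) * 2 ^ d * ((m + 1) * B) * (j * A + 1) ^ d := by
  sorry

end Pool.Agent.H87.SX
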