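import Pool.Agent.H87.SX.XHE

/-! # [SX-XEC] The tail of a Puiseux series with explicit growth

The proof of `Pool.Agent.H87.SA2.eisb_core` (`Pool/Agent/H87/SA2/EISB.lean`, proved) with explicit
constants; copy it. There `Q = taylor p P1`, `δ = U.coeff 0` is the coefficient of `T^s` in
`Q.coeff 1` and equals the coefficient of `T^s` of `(derivative (P1.map eisb_i)).eval (T^s v + p)`
(this is shown there: `hc s le_rfl`). The polynomials `B j` have coefficients among those of the
`Q.coeff j`, bounded by `W`; `B j = 0` for `j > d` (`natDegree_taylor`), and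
`(B j).natDegree ≤ m1 + d s + s d ≤ n`: `Q.coeff r = (hasseDeriv r P1).eval p =
∑_b (b choose r) P1_b p^(b - r)` has degree `≤ m1 + d s` (`taylor_coeff`), and
`B (j + 2) = X^(s j) * Q.coeff (j + 2)` with `j + 2 ≤ d`. Use the given `n` (any `n ≥ m1 + 2 d s + d + 3`)
in place of the `n` there and `eis_hensX` in place of `eis_hens`. -/

namespace Pool.Agent.H87.SX

open Finset Polynomial Pool.Agent.H87.SA2

theorem taylor_deg {P1 : eisb_S[X][X]} {p : eisb_S[X]} {d m1 s : ℕ} (hdeg : P1.natDegree ≤ d)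
    (hm1 : ∀ b, (P1.coeff b).natDegree ≤ m1) (hp : p.natDegree ≤ s) (r : ℕ) :
    ((taylor p P1).coeff r).natDegree ≤ m1 + d * s := by
  rw [taylor_coeff, eval_eq_sum_range]
  refine natDegree_sum_le_of_forall_le _ _ fun b hb => ?_
  rw [mem_range] at hb
  have h1 := natDegree_hasseDeriv_le P1 r
  have hbd : b ≤ d := by omega
  rw [hasseDeriv_coeff]
  refine natDegree_mul_le.trans (add_le_add ?_ ?_)
  · refine natDegree_mul_le.trans ?_
    rw [natDegree_natCast, zero_add]
    exact hm1 _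
  · refine natDegree_pow_le.trans ?_
    exact Nat.mul_le_mul hbd hp

theorem eisb_coreX (P1 : eisb_S[X][X]) (p : eisb_S[X]) (s : ℕ) (v : PowerSeries ℂ)
    (hv0 : PowerSeries.constantCoeff v = 0)
    (hx : (P1.map eisb_i).eval (PowerSeries.X ^ s * v + eisb_i p) = 0)
    (hD : ∀ k < s, PowerSeries.coeff k
      ((derivative (P1.map eisb_i)).eval (PowerSeries.X ^ s * v + eisb_i p)) = 0)
    (hDs : PowerSeries.coeff s
      ((derivative (P1.map eisb_i)).eval (PowerSeries.X ^ s * v + eisb_i p)) ≠ 0)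
    {d m1 n : ℕ} {W : ℝ} (hdeg : P1.natDegree ≤ d) (hm1 : ∀ b, (P1.coeff b).natDegree ≤ m1)
    (hp : p.natDegree ≤ s) (hn : m1 + 2 * d * s + d + 3 ≤ n) (hW : 1 ≤ W)
    (hWQ : ∀ r l, ‖((((taylor p P1).coeff r).coeff l : eisb_S) : ℂ)‖ ≤ W) :
    ∃ δ : ℂ, δ = PowerSeries.coeff s
        ((derivative (P1.map eisb_i)).eval (PowerSeries.X ^ s * v + eisb_i p)) ∧
      IsIntegral ℤ δ ∧ (∀ k, IsIntegral ℤ (δ ^ (2 * k) * PowerSeries.coeff k v)) ∧
      ∀ k, ‖PowerSeries.coeff k v‖ ≤ hR n W ‖δ‖ ^ (k + 1) := by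
  obtain ⟨Q, hQ⟩ : ∃ Q : eisb_S[X][X], Q = taylor p P1 := ⟨_, rfl⟩
  have hQmap : Q.map eisb_i = taylor (eisb_i p) (P1.map eisb_i) := by
    rw [hQ, taylor_apply, taylor_apply, Polynomial.map_comp, Polynomial.map_add, Polynomial.map_X,
      Polynomial.map_C]
  have hQeval : ∑ j ∈ range (Q.natDegree + 2),
      eisb_i (Q.coeff j) * (PowerSeries.X ^ s * v) ^ j = 0 := by
    have h1 : (Q.map eisb_i).eval (PowerSeries.X ^ s * v) = 0 := by
      rw [hQmap, taylor_eval, hx]
    rw [eval_eq_sum_range' (n := Q.natDegree + 2)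
      (lt_of_le_of_lt natDegree_map_le (by omega))] at h1
    rw [← h1]
    refine sum_congr rfl fun j _ => ?_
    rw [Polynomial.coeff_map]
  have hvX : PowerSeries.X ∣ v := PowerSeries.X_dvd_iff.2 hv0
  have hP1 : eisb_i (Q.coeff 1) = (derivative (P1.map eisb_i)).eval (eisb_i p) := by
    rw [← Polynomial.coeff_map, hQmap, taylor_coeff_one]
  have hdiff : PowerSeries.X ^ (s + 1) ∣
      (derivative (P1.map eisb_i)).eval (PowerSeries.X ^ s * v + eisb_i p) -
        (derivative (P1.map eisb_i)).eval (eisb_i p) := by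
    refine Dvd.dvd.trans ?_ (Polynomial.sub_dvd_eval_sub _ _ _)
    rw [add_sub_cancel_right, pow_succ]
    exact mul_dvd_mul_left _ hvX
  have hc : ∀ k ≤ s, PowerSeries.coeff k (eisb_i (Q.coeff 1)) =
      PowerSeries.coeff k
        ((derivative (P1.map eisb_i)).eval (PowerSeries.X ^ s * v + eisb_i p)) := by
    intro k hk
    have h1 := PowerSeries.X_pow_dvd_iff.1 hdiff k (by omega)
    rw [map_sub, sub_eq_zero] at h1
    rw [hP1, h1]
  obtain ⟨U, hU⟩ : X ^ s ∣ Q.coeff 1 := by
    rw [Polynomial.X_pow_dvd_iff]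
    intro d hd
    have h1 := hc d hd.le
    rw [hD d hd, eisb_coeff] at h1
    exact Subtype.ext h1
  have hU0 : ((U.coeff 0 : eisb_S) : ℂ) ≠ 0 := by
    have h1 := hc s le_rfl
    rw [eisb_coeff, hU] at h1
    have h2 := Polynomial.coeff_X_pow_mul U s 0
    rw [zero_add] at h2
    rw [h2] at h1
    rw [h1]
    exact hDs
  obtain ⟨A, hA⟩ : X ^ (2 * s + 1) ∣ Q.coeff 0 := by
    apply eisb_dvd
    rw [sum_range_succ'] at hQeval
    rw [pow_zero, mul_one] at hQeval
    have h1 : PowerSeries.X ^ (2 * s + 1) ∣ ∑ j ∈ range (Q.natDegree + 1),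
        eisb_i (Q.coeff (j + 1)) * (PowerSeries.X ^ s * v) ^ (j + 1) := by
      refine dvd_sum fun j _ => ?_
      rcases j with _ | j
      · rw [hU, map_mul, map_pow, eisb_X]
        have h2 : (PowerSeries.X : PowerSeries ℂ) ^ (2 * s + 1) =
            PowerSeries.X ^ s * (PowerSeries.X ^ s * PowerSeries.X) := by ring
        rw [h2, zero_add, pow_one]
        exact mul_dvd_mul (dvd_mul_right _ _) (mul_dvd_mul_left _ hvX)
      · refine Dvd.dvd.mul_left ?_ _
        have h2 : (PowerSeries.X ^ s * v) ^ (j + 1 + 1) =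
            (PowerSeries.X ^ (2 * s) * (v * v)) * (PowerSeries.X ^ s * v) ^ j := by ring
        rw [h2, pow_succ]
        exact (mul_dvd_mul_left _ (hvX.mul_right _)).mul_right _
    exact (dvd_add_right h1).1 (hQeval ▸ dvd_zero _)
  obtain ⟨B, hB0, hB1, hB2⟩ : ∃ B : ℕ → eisb_S[X], B 0 = X * A ∧ B 1 = U ∧
      ∀ j, B (j + 2) = X ^ (s * j) * Q.coeff (j + 2) :=
    ⟨fun j => match j with
      | 0 => X * A
      | 1 => U
      | (j + 2) => X ^ (s * j) * Q.coeff (j + 2), rfl, rfl, fun _ => rfl⟩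
  have hB : ∀ j, PowerSeries.X ^ (2 * s) * (eisb_i (B j) * v ^ j) =
      eisb_i (Q.coeff j) * (PowerSeries.X ^ s * v) ^ j := by
    intro j
    rcases j with _ | _ | j
    · rw [hB0, hA, map_mul, map_mul, map_pow, eisb_X]
      ring
    · rw [zero_add, hB1, hU, map_mul, map_pow, eisb_X]
      ring
    · have h2 : j + 1 + 1 = j + 2 := rfl
      rw [h2, hB2, map_mul, map_pow, eisb_X]
      ring
  have hsum : ∑ j ∈ range (Q.natDegree + 2), eisb_i (B j) * v ^ j = 0 := by
    have h1 : (PowerSeries.X : PowerSeries ℂ) ^ (2 * s) ≠ 0 := pow_ne_zero _ PowerSeries.X_ne_zero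
    apply mul_left_cancel₀ h1
    rw [mul_sum, mul_zero, ← hQeval]
    exact sum_congr rfl fun j _ => hB j
  have hQd : Q.natDegree ≤ d := by
    rw [hQ, natDegree_taylor]
    exact hdeg
  have hQc : ∀ r, (Q.coeff r).natDegree ≤ m1 + d * s := by
    intro r
    rw [hQ]
    exact taylor_deg hdeg hm1 hp r
  rw [← hQ] at hWQ
  have hBz : ∀ j, Q.natDegree + 2 ≤ j → B j = 0 := by
    intro j hj
    obtain ⟨i, rfl⟩ : ∃ i, j = i + 2 := ⟨j - 2, by omega⟩
    rw [hB2, coeff_eq_zero_of_natDegree_lt (by omega), mul_zero]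
  have hds : m1 + d * s ≤ n := by
    have : d * s ≤ 2 * d * s := by nlinarith [Nat.zero_le (d * s)]
    omega
  have hBn : ∀ j, (B j).natDegree < n + 1 := by
    intro j
    rcases j with _ | _ | j
    · rw [hB0]
      by_cases hA0 : A = 0
      · rw [hA0, mul_zero, natDegree_zero]
        omega
      · have h1 := hQc 0
        rw [hA, natDegree_X_pow_mul _ hA0] at h1
        rw [natDegree_X_mul hA0]
        omega
    · rw [zero_add, hB1]
      by_cases hU00 : U = 0
      · rw [hU00, natDegree_zero]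
        omega
      · have h1 := hQc 1
        rw [hU, natDegree_X_pow_mul _ hU00] at h1
        omega
    · have h2 : j + 1 + 1 = j + 2 := rfl
      rw [h2, hB2]
      by_cases hj : j + 2 ≤ Q.natDegree
      · refine lt_of_le_of_lt (natDegree_mul_le) ?_
        have h1 := hQc (j + 2)
        have h3 := natDegree_X_pow_le (R := eisb_S) (s * j)
        have h4 : s * j ≤ d * s := by
          rw [mul_comm d s]
          exact Nat.mul_le_mul_left _ (by omega)
        have h5 : 2 * d * s = d * s + d * s := by ring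
        omega
      · rw [coeff_eq_zero_of_natDegree_lt (by omega), mul_zero, natDegree_zero]
        omega
  have hBW : ∀ i j, ‖(((B j).coeff i : eisb_S) : ℂ)‖ ≤ W := by
    intro i j
    have hz : ‖((0 : eisb_S) : ℂ)‖ ≤ W := by
      have h1 : ((0 : eisb_S) : ℂ) = 0 := rfl
      rw [h1, norm_zero]
      linarith
    rcases j with _ | _ | j
    · rw [hB0]
      rcases i with _ | i
      · rw [Polynomial.mul_coeff_zero, Polynomial.coeff_X_zero, zero_mul]
        exact hz
      · rw [coeff_X_mul]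
        have h1 := hWQ 0 (i + (2 * s + 1))
        rw [hA, coeff_X_pow_mul] at h1
        exact h1
    · rw [zero_add, hB1]
      have h1 := hWQ 1 (i + s)
      rw [hU, coeff_X_pow_mul] at h1
      exact h1
    · have h2 : j + 1 + 1 = j + 2 := rfl
      rw [h2, hB2, coeff_X_pow_mul']
      split_ifs
      · exact hWQ _ _
      · exact hz
  have hiB : ∀ j, eisb_i (B j) = ∑ i ∈ range (n + 1),
      PowerSeries.C (((B j).coeff i : eisb_S) : ℂ) * PowerSeries.X ^ i := by
    intro j
    conv_lhs => rw [Polynomial.as_sum_range_C_mul_X_pow' (B j) (hBn j)]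
    rw [map_sum]
    refine sum_congr rfl fun i _ => ?_
    rw [map_mul, map_pow, eisb_X, eisb_C]
  have hfin : ∑ i ∈ range (n + 1), ∑ j ∈ range (n + 1),
      PowerSeries.C (((B j).coeff i : eisb_S) : ℂ) * PowerSeries.X ^ i * v ^ j = 0 := by
    rw [sum_comm]
    have h1 : ∑ j ∈ range (n + 1), ∑ i ∈ range (n + 1),
        PowerSeries.C (((B j).coeff i : eisb_S) : ℂ) * PowerSeries.X ^ i * v ^ j =
        ∑ j ∈ range (n + 1), eisb_i (B j) * v ^ j := by
      refine sum_congr rfl fun j _ => ?_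
      rw [hiB, sum_mul]
    rw [h1, ← hsum]
    symm
    refine sum_subset (fun j hj => ?_) fun j _ hj => ?_
    · rw [mem_range] at hj ⊢
      omega
    · rw [mem_range, not_lt] at hj
      rw [hBz j hj, map_zero, zero_mul]
  have hδe : ((U.coeff 0 : eisb_S) : ℂ) = PowerSeries.coeff s
      ((derivative (P1.map eisb_i)).eval (PowerSeries.X ^ s * v + eisb_i p)) := by
    have h1 := hc s le_rfl
    rw [eisb_coeff, hU] at h1
    have h2 := Polynomial.coeff_X_pow_mul U s 0
    rw [zero_add] at h2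
    rw [h2] at h1
    exact h1
  obtain ⟨h1, h2⟩ := eis_hensX n (by omega) (fun i j => (((B j).coeff i : eisb_S) : ℂ))
    (fun i j => ((B j).coeff i).2) (by
      rw [hB0, Polynomial.mul_coeff_zero, Polynomial.coeff_X_zero, zero_mul]
      rfl) (by
      rw [hB1]
      exact hU0) v hv0 hfin hW (fun i _ j _ => hBW i j)
  refine ⟨((U.coeff 0 : eisb_S) : ℂ), hδe, (U.coeff 0).2, ?_, ?_⟩
  · intro k
    have h3 := h1 k
    simp only [hB1] at h3
    exact h3
  · intro k
    have h3 := h2 k
    simp only [hB1] at h3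
    exact h3

end Pool.Agent.H87.SX
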