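import Pool.Agent.H87.SX.Defs
import Pool.Agent.H87.SA2.EISB

/-! # [SX-XHE] Hensel series over the algebraic integers with explicit growth

The proof of `Pool.Agent.H87.SA2.eis_hens` (`Pool/Agent/H87/SA2/EISA.lean`, proved) with explicit
constants: there `B` bounds `ν (c' i j)`, `c' i j = - c i j δ ^ (2 i + j - 2)`, `δ = c 0 1`; take
`B = W (1 + ‖δ‖)^(3 n)` (`2 i + j - 2 ≤ 3 n`), `b = (n + 1)^2 B`; the final constant there is
`R = (1 + ‖δ‖) (1 + b ^ 2 / ‖δ‖ ^ 2) = hR n W ‖δ‖`. Copy the proof and change only the choice of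
`B`. (`hens_unique`, `exists_series_bd` may be used.) -/

namespace Pool.Agent.H87.SX

open Finset Polynomial Pool.Agent.H72.ES Pool.Agent.H87.SA2

/-- growth constant of the Hensel series -/
noncomputable def hR (n : ℕ) (W δ : ℝ) : ℝ :=
  (1 + δ) * (1 + (((n : ℝ) + 1) ^ 2 * (W * (1 + δ) ^ (3 * n))) ^ 2 / δ ^ 2)

theorem eis_hensX (n : ℕ) (hn : 1 ≤ n) (c : ℕ → ℕ → ℂ) (hc : ∀ i j, IsIntegral ℤ (c i j))
    (h00 : c 0 0 = 0) (h01 : c 0 1 ≠ 0) (v : PowerSeries ℂ)
    (hv0 : PowerSeries.constantCoeff v = 0)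
    (hv : ∑ i ∈ range (n + 1), ∑ j ∈ range (n + 1),
      PowerSeries.C (c i j) * PowerSeries.X ^ i * v ^ j = 0)
    {W : ℝ} (hW : 1 ≤ W) (hcW : ∀ i ≤ n, ∀ j ≤ n, ‖c i j‖ ≤ W) :
    (∀ k, IsIntegral ℤ (c 0 1 ^ (2 * k) * PowerSeries.coeff k v)) ∧
      ∀ k, ‖PowerSeries.coeff k v‖ ≤ hR n W ‖c 0 1‖ ^ (k + 1) := by
  set δ : ℂ := c 0 1 with hδ
  let S : Type := integralClosure ℤ ℂ
  let ν : S → ℝ := fun a => ‖(a : ℂ)‖
  have hν : SubMul ν :=
    { nonneg := fun a => norm_nonneg _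
      zero := by simp [ν]
      neg := fun a => norm_neg (a : ℂ)
      add := fun a b => norm_add_le (a : ℂ) (b : ℂ)
      mul := fun a b => norm_mul_le (a : ℂ) (b : ℂ)
      one := by simp [ν] }
  let C0 : ℕ → ℕ → S := fun i j => ⟨c i j, hc i j⟩
  let D : S := ⟨δ, hc 0 1⟩
  let c' : ℕ → ℕ → S := fun i j =>
    if i = 0 ∧ j ≤ 1 then 0 else - C0 i j * D ^ (2 * i + j - 2)
  obtain ⟨B, hBdef⟩ : ∃ B : ℝ, B = W * (1 + ‖δ‖) ^ (3 * n) := ⟨_, rfl⟩
  have hδ1 : 1 ≤ 1 + ‖δ‖ := by linarith [norm_nonneg δ]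
  have hB1 : 1 ≤ B := by
    rw [hBdef]
    exact one_le_mul_of_one_le_of_one_le hW (one_le_pow₀ hδ1)
  have hB : ∀ i j, i ≤ n → j ≤ n → ν (c' i j) ≤ B := by
    intro i j hi hj
    simp only [c']
    split_ifs with h
    · rw [hν.zero]
      linarith
    · have h1 : ν (- C0 i j * D ^ (2 * i + j - 2)) = ‖c i j‖ * ‖δ‖ ^ (2 * i + j - 2) := by
        change ‖- c i j * δ ^ (2 * i + j - 2)‖ = _
        rw [norm_mul, norm_neg, norm_pow]
      rw [h1, hBdef]
      refine mul_le_mul (hcW i hi j hj) ?_ (by positivity) (by linarith)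
      calc ‖δ‖ ^ (2 * i + j - 2) ≤ (1 + ‖δ‖) ^ (2 * i + j - 2) :=
            pow_le_pow_left₀ (norm_nonneg _) (by linarith) _
        _ ≤ (1 + ‖δ‖) ^ (3 * n) := pow_le_pow_right₀ hδ1 (by omega)
  obtain ⟨w, hw0, hw, hwb⟩ := Pool.Agent.H87.SA.exists_series_bd hν n c'
    (by simp [c']) (by simp [c']) hB1 hB
  -- map to ℂ
  let φ : S →+* ℂ := (integralClosure ℤ ℂ).val.toRingHom
  have hφ : ∀ a : S, φ a = (a : ℂ) := fun a => rfl
  set V1 : PowerSeries ℂ := w.map φ with hV1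
  have hV1c : ∀ k, PowerSeries.coeff k V1 = ((PowerSeries.coeff k w : S) : ℂ) := by
    intro k
    rw [hV1, PowerSeries.coeff_map, hφ]
  have hV1eq : V1 = ∑ i ∈ range (n + 1), ∑ j ∈ range (n + 1),
      PowerSeries.C (φ (c' i j)) * PowerSeries.X ^ i * V1 ^ j := by
    conv_lhs => rw [hV1, hw]
    rw [map_sum]
    refine sum_congr rfl fun i _ => ?_
    rw [map_sum]
    refine sum_congr rfl fun j _ => ?_
    rw [map_mul, map_mul, map_pow, map_pow, PowerSeries.map_C, PowerSeries.map_X]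
  -- the equation for V1
  have hV12 : ∑ i ∈ range (n + 1), ∑ j ∈ range (n + 1),
      PowerSeries.C (c i j * δ ^ (2 * i + j)) * PowerSeries.X ^ i * V1 ^ j = 0 := by
    have h1 : ∀ i j, PowerSeries.C (c i j * δ ^ (2 * i + j)) * PowerSeries.X ^ i * V1 ^ j =
        (if i = 0 then (if j = 1 then PowerSeries.C (δ ^ 2) * V1 else 0) else 0) -
        PowerSeries.C (δ ^ 2) *
          (PowerSeries.C (φ (c' i j)) * PowerSeries.X ^ i * V1 ^ j) := by
      intro i j
      by_cases hi : i = 0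
      · subst hi
        rcases j with _ | j
        · simp [c', h00]
        · rcases j with _ | j
          · have h2 : c' 0 (0 + 1) = 0 := by simp [c']
            have h3 : c 0 (0 + 1) * δ ^ (2 * 0 + (0 + 1)) = δ ^ 2 := by
              show δ * δ ^ 1 = δ ^ 2
              ring
            rw [if_pos rfl, if_pos rfl, h2, h3, map_zero, map_zero]
            simp only [pow_zero, zero_add, pow_one, mul_one, zero_mul, mul_zero, sub_zero]
          · rw [if_pos rfl, if_neg (by omega)]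
            have h2 : c' 0 (j + 1 + 1) = - C0 0 (j + 1 + 1) * D ^ (2 * 0 + (j + 1 + 1) - 2) := by
              simp only [c']
              rw [if_neg (by omega)]
            rw [h2, hφ]
            have h3 : ((- C0 0 (j + 1 + 1) * D ^ (2 * 0 + (j + 1 + 1) - 2) : S) : ℂ) =
                - c 0 (j + 1 + 1) * δ ^ j := by
              have h4 : 2 * 0 + (j + 1 + 1) - 2 = j := by omega
              rw [h4]
              rfl
            rw [h3]
            have h5 : c 0 (j + 1 + 1) * δ ^ (2 * 0 + (j + 1 + 1)) =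
                - (δ ^ 2 * (- c 0 (j + 1 + 1) * δ ^ j)) := by ring
            rw [h5]
            simp only [map_neg, map_mul, pow_zero]
            ring
      · rw [if_neg hi]
        have h2 : c' i j = - C0 i j * D ^ (2 * i + j - 2) := by
          simp only [c']
          rw [if_neg (by omega)]
        rw [h2, hφ]
        have h3 : ((- C0 i j * D ^ (2 * i + j - 2) : S) : ℂ) = - c i j * δ ^ (2 * i + j - 2) := rfl
        rw [h3]
        obtain ⟨e, he⟩ : ∃ e, 2 * i + j = e + 2 := ⟨2 * i + j - 2, by omega⟩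
        rw [he]
        have h5 : c i j * δ ^ (e + 2) = - (δ ^ 2 * (- c i j * δ ^ (e + 2 - 2))) := by
          rw [Nat.add_sub_cancel]
          ring
        rw [h5]
        simp only [map_neg, map_mul]
        ring
    simp_rw [h1]
    simp_rw [Finset.sum_sub_distrib, ← Finset.mul_sum]
    rw [← hV1eq]
    rw [Finset.sum_eq_single 0]
    · simp only [if_true]
      rw [Finset.sum_eq_single 1]
      · simp
      · intro b _ hb
        rw [if_neg hb]
      · intro h
        exact absurd (Finset.mem_range.2 (by omega)) h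
    · intro b _ hb
      simp [hb]
    · intro h
      exact absurd (Finset.mem_range.2 (by omega)) h
  have hδ2 : δ ^ 2 ≠ 0 := pow_ne_zero 2 h01
  -- the series v'
  set v' : PowerSeries ℂ := PowerSeries.rescale ((δ ^ 2)⁻¹) (PowerSeries.C δ * V1) with hv'
  have hv'c : ∀ k, PowerSeries.coeff k v' = ((δ ^ 2)⁻¹) ^ k * (δ * PowerSeries.coeff k V1) := by
    intro k
    rw [hv', PowerSeries.coeff_rescale, PowerSeries.coeff_C_mul]
  have hv'0 : PowerSeries.constantCoeff v' = 0 := by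
    rw [← PowerSeries.coeff_zero_eq_constantCoeff_apply, hv'c, hV1c,
      PowerSeries.coeff_zero_eq_constantCoeff_apply, hw0]
    simp
  have hv'eq : ∑ i ∈ range (n + 1), ∑ j ∈ range (n + 1),
      PowerSeries.C (c i j) * PowerSeries.X ^ i * v' ^ j = 0 := by
    have h1 := congrArg (PowerSeries.rescale ((δ ^ 2)⁻¹)) hV12
    rw [map_zero, map_sum] at h1
    rw [← h1]
    refine sum_congr rfl fun i _ => ?_
    rw [map_sum]
    refine sum_congr rfl fun j _ => ?_
    have hrC : ∀ a : ℂ, PowerSeries.rescale ((δ ^ 2)⁻¹) (PowerSeries.C a) = PowerSeries.C a := by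
      intro a
      ext k
      rw [PowerSeries.coeff_rescale, PowerSeries.coeff_C]
      split_ifs with h
      · subst h; simp
      · simp
    have h2 : c i j * δ ^ (2 * i + j) * ((δ ^ 2)⁻¹) ^ i = c i j * δ ^ j := by
      rw [pow_add, pow_mul, inv_pow]
      have h3 : (δ ^ 2) ^ i ≠ 0 := pow_ne_zero i hδ2
      field_simp
    set V : PowerSeries ℂ := PowerSeries.rescale ((δ ^ 2)⁻¹) V1 with hV
    have h4 : v' = PowerSeries.C δ * V := by
      rw [hv', map_mul, hrC]
    have h5 : PowerSeries.rescale ((δ ^ 2)⁻¹)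
        (PowerSeries.C (c i j * δ ^ (2 * i + j)) * PowerSeries.X ^ i * V1 ^ j) =
        PowerSeries.C (c i j * δ ^ (2 * i + j)) *
          (PowerSeries.C ((δ ^ 2)⁻¹) * PowerSeries.X) ^ i * V ^ j := by
      rw [map_mul, map_mul, map_pow, map_pow, PowerSeries.rescale_X, hrC]
    rw [h5, h4]
    calc PowerSeries.C (c i j) * PowerSeries.X ^ i * (PowerSeries.C δ * V) ^ j
        = PowerSeries.C (c i j * δ ^ j) * PowerSeries.X ^ i * V ^ j := by
          rw [map_mul, map_pow, mul_pow]; ring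
      _ = PowerSeries.C (c i j * δ ^ (2 * i + j) * ((δ ^ 2)⁻¹) ^ i) * PowerSeries.X ^ i *
          V ^ j := by rw [h2]
      _ = _ := by
          rw [map_mul PowerSeries.C (c i j * δ ^ (2 * i + j)), map_pow PowerSeries.C ((δ ^ 2)⁻¹) i,
            mul_pow]
          ring
  have hvv : v = v' := hens_unique hn c h01 v v' hv0 hv'0 hv hv'eq
  have hk : ∀ k, PowerSeries.coeff k v = ((δ ^ 2)⁻¹) ^ k * (δ * PowerSeries.coeff k V1) := by
    intro k
    rw [hvv, hv'c]
  refine ⟨?_, ?_⟩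
  · intro k
    have h1 : δ ^ (2 * k) * PowerSeries.coeff k v = ((D * PowerSeries.coeff k w : S) : ℂ) := by
      rw [hk, hV1c, pow_mul]
      have h2 : (δ ^ 2) ^ k * ((δ ^ 2)⁻¹) ^ k = 1 := by
        rw [← mul_pow, mul_inv_cancel₀ hδ2, one_pow]
      have h3 : ((D * PowerSeries.coeff k w : S) : ℂ) = δ * ((PowerSeries.coeff k w : S) : ℂ) := rfl
      rw [h3, ← mul_assoc, h2, one_mul]
    rw [h1]
    exact (D * PowerSeries.coeff k w : S).2
  · set b : ℝ := ((n : ℝ) + 1) ^ 2 * B with hb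
    have hb1 : 1 ≤ b := by
      have h1 : (1 : ℝ) ≤ (n : ℝ) + 1 := by
        have : (0 : ℝ) ≤ n := Nat.cast_nonneg n
        linarith
      have h2 : (1 : ℝ) ≤ ((n : ℝ) + 1) ^ 2 := one_le_pow₀ h1
      calc (1 : ℝ) = 1 * 1 := by ring
        _ ≤ ((n : ℝ) + 1) ^ 2 * B := mul_le_mul h2 hB1 (by norm_num) (by linarith)
    have hδpos : 0 < ‖δ‖ := norm_pos_iff.2 h01
    have hq : 0 ≤ b ^ 2 / ‖δ‖ ^ 2 := by positivity
    have hRR : hR n W ‖δ‖ = (1 + ‖δ‖) * (1 + b ^ 2 / ‖δ‖ ^ 2) := by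
      rw [hR, hb, hBdef]
    rw [hRR]
    · intro k
      have h1 : ‖PowerSeries.coeff k v‖ = (‖δ‖ ^ 2)⁻¹ ^ k * (‖δ‖ * ν (PowerSeries.coeff k w)) := by
        rw [hk, hV1c, norm_mul, norm_pow, norm_inv, norm_pow, norm_mul]
      have h2 : ν (PowerSeries.coeff k w) ≤ (b ^ 2) ^ k := by
        have h3 := hwb k
        have h4 := hν.nonneg (PowerSeries.coeff k w)
        calc ν (PowerSeries.coeff k w) = ν (PowerSeries.coeff k w) * 1 := by ring
          _ ≤ ν (PowerSeries.coeff k w) * b := mul_le_mul_of_nonneg_left hb1 h4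
          _ ≤ (b ^ 2) ^ k := h3
      rw [h1]
      calc (‖δ‖ ^ 2)⁻¹ ^ k * (‖δ‖ * ν (PowerSeries.coeff k w))
          ≤ (‖δ‖ ^ 2)⁻¹ ^ k * (‖δ‖ * (b ^ 2) ^ k) := by gcongr
        _ = ‖δ‖ * (b ^ 2 / ‖δ‖ ^ 2) ^ k := by
            rw [div_pow, inv_pow]
            field_simp
        _ ≤ (1 + ‖δ‖) * (1 + b ^ 2 / ‖δ‖ ^ 2) ^ k := by
            gcongr
            · linarith
            · linarith
        _ ≤ (1 + ‖δ‖) ^ (k + 1) * (1 + b ^ 2 / ‖δ‖ ^ 2) ^ (k + 1) := by
            gcongr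
            · calc (1 + ‖δ‖) = (1 + ‖δ‖) ^ 1 := by ring
                _ ≤ (1 + ‖δ‖) ^ (k + 1) := pow_le_pow_right₀ (by linarith) (by omega)
            · linarith
            · omega
        _ = ((1 + ‖δ‖) * (1 + b ^ 2 / ‖δ‖ ^ 2)) ^ (k + 1) := (mul_pow _ _ _).symm


end Pool.Agent.H87.SX
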