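import Pool.Agent.H87.SX.XST

/-! # [SX-XIT] All Puiseux coefficients up to a given order: explicit denominators and sizes

Induction on `S`: for `S = 0` take `q = 1` (`1 ≤ cM`, no coefficients). Step from `j` to `j + 1` by
`step` with `A = M := cM d m B j` (a natural number `≥ 2`, and `cK d m B ≤ M`): `q ≤ M`, `j ≤ M`
(since `2 ^ ((10 (d+1)^3)^j) ≥ 2^j > j`),
`W ≤ M (M * M + 1)^d ≤ M (M^3)^d = M^(3 d + 1)`, `q^d W ≤ M^(4 d + 1)`,
`q' ≤ M M^((4 d + 1) d d)`, `A' ≤ M + d M^(3d+1) M^d M^((4d+1) d)`, both `≤ M^(10 (d + 1)^3) =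
cM d m B (j + 1)` (`pow_mul`, `pow_succ`; `d ≤ 2^d ≤ M`). -/

namespace Pool.Agent.H87.SX

open Finset Polynomial Pool.Agent.H87.SA2

theorem xit_two_le_cK {d m B : ℕ} (hB : 2 ≤ B) : 2 ≤ cK d m B := by
  unfold cK
  have h1 : 1 ≤ (d + 1) * 2 ^ d * ((m + 1) * B) := by
    have h2 : 0 < (d + 1) * 2 ^ d * ((m + 1) * B) := by positivity
    exact h2
  omega

theorem xit_cM_succ (d m B j : ℕ) : cM d m B (j + 1) = cM d m B j ^ (10 * (d + 1) ^ 3) := by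
  unfold cM
  rw [pow_succ, pow_mul]

theorem two_le_cM {d m B : ℕ} (hB : 2 ≤ B) (S : ℕ) : 2 ≤ cM d m B S ∧ cK d m B ≤ cM d m B S ∧
    S ≤ cM d m B S := by
  have hK := xit_two_le_cK (d := d) (m := m) hB
  have ha : 2 ≤ 10 * (d + 1) ^ 3 := by
    have : 1 ≤ (d + 1) ^ 3 := Nat.one_le_pow _ _ (by omega)
    omega
  have h1 : 1 ≤ (10 * (d + 1) ^ 3) ^ S := Nat.one_le_pow _ _ (by omega)
  have h2 : cK d m B ≤ cM d m B S := by
    unfold cM
    calc cK d m B = cK d m B ^ 1 := (pow_one _).symm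
      _ ≤ _ := Nat.pow_le_pow_right (by omega) h1
  refine ⟨le_trans hK h2, h2, ?_⟩
  have h3 : 2 ^ S ≤ (10 * (d + 1) ^ 3) ^ S := Nat.pow_le_pow_left ha S
  have h4 : S < 2 ^ S := Nat.lt_two_pow_self
  have h5 : (10 * (d + 1) ^ 3) ^ S < 2 ^ ((10 * (d + 1) ^ 3) ^ S) := Nat.lt_two_pow_self
  have h6 : 2 ^ ((10 * (d + 1) ^ 3) ^ S) ≤ cM d m B S := by
    unfold cM
    exact Nat.pow_le_pow_left hK _
  omega

theorem cM_step {d m B j q : ℕ} (hd : 1 ≤ d) (hB : 2 ≤ B) (hq : q ≤ cM d m B j) (W : ℝ)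
    (hW : W = (d + 1) * 2 ^ d * ((m + 1) * B) * (j * (cM d m B j : ℝ) + 1) ^ d) :
    (q : ℝ) * (((q : ℝ) ^ d * W) ^ d) ^ d ≤ cM d m B (j + 1) ∧
      (cM d m B j : ℝ) + d * W * ((q : ℝ) ^ d * ((q : ℝ) ^ d * W) ^ d) ≤ cM d m B (j + 1) := by
  obtain ⟨h2, hK, hj⟩ := two_le_cM (d := d) (m := m) hB j
  rw [xit_cM_succ]
  push_cast
  have hK' : (cK d m B : ℝ) = 2 * ((d + 1) * 2 ^ d * ((m + 1) * B)) := by
    unfold cK
    push_cast
    ring
  have hK2 : (cK d m B : ℝ) ≤ (cM d m B j : ℝ) := by exact_mod_cast hK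
  have h2' : (2 : ℝ) ≤ (cM d m B j : ℝ) := by exact_mod_cast h2
  have hj' : (j : ℝ) ≤ (cM d m B j : ℝ) := by exact_mod_cast hj
  have hq' : (q : ℝ) ≤ (cM d m B j : ℝ) := by exact_mod_cast hq
  set M : ℝ := (cM d m B j : ℝ) with hM
  have hM0 : 0 ≤ M := by linarith
  have hM1 : 1 ≤ M := by linarith
  have hq0 : (0 : ℝ) ≤ q := Nat.cast_nonneg q
  have hj0 : (0 : ℝ) ≤ j := Nat.cast_nonneg j
  have hW0 : 0 ≤ W := by
    rw [hW]
    positivity
  have hWle : W ≤ M ^ (3 * d + 1) / 2 := by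
    have e1 : (j : ℝ) * M + 1 ≤ M ^ 3 := by nlinarith [mul_le_mul_of_nonneg_right hj' hM0]
    have e2 : ((j : ℝ) * M + 1) ^ d ≤ (M ^ 3) ^ d := pow_le_pow_left₀ (by positivity) e1 d
    have e3 : ((d : ℝ) + 1) * 2 ^ d * ((m + 1) * B) ≤ M / 2 := by linarith
    have e4 : (0 : ℝ) ≤ ((j : ℝ) * M + 1) ^ d := by positivity
    rw [hW]
    calc ((d : ℝ) + 1) * 2 ^ d * ((m + 1) * B) * (j * M + 1) ^ d
        ≤ (M / 2) * (M ^ 3) ^ d := mul_le_mul e3 e2 e4 (by positivity)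
      _ = M ^ (3 * d + 1) / 2 := by rw [← pow_mul, pow_succ]; ring
  have hqd : (q : ℝ) ^ d ≤ M ^ d := pow_le_pow_left₀ hq0 hq' d
  have hMp : (0 : ℝ) ≤ M ^ (3 * d + 1) := by positivity
  have hD : (q : ℝ) ^ d * W ≤ M ^ (4 * d + 1) := by
    calc (q : ℝ) ^ d * W ≤ M ^ d * M ^ (3 * d + 1) :=
          mul_le_mul hqd (by linarith) hW0 (by positivity)
      _ = M ^ (4 * d + 1) := by rw [← pow_add]; congr 1; ring
  have hD0 : 0 ≤ (q : ℝ) ^ d * W := by positivity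
  have hD1 : ((q : ℝ) ^ d * W) ^ d ≤ M ^ ((4 * d + 1) * d) := by
    rw [pow_mul]
    exact pow_le_pow_left₀ hD0 hD d
  have hD10 : 0 ≤ ((q : ℝ) ^ d * W) ^ d := by positivity
  constructor
  · have hD2 : (((q : ℝ) ^ d * W) ^ d) ^ d ≤ M ^ ((4 * d + 1) * d * d) := by
      rw [pow_mul]
      exact pow_le_pow_left₀ hD10 hD1 d
    calc (q : ℝ) * (((q : ℝ) ^ d * W) ^ d) ^ d ≤ M * M ^ ((4 * d + 1) * d * d) :=
          mul_le_mul hq' hD2 (by positivity) hM0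
      _ = M ^ ((4 * d + 1) * d * d + 1) := by rw [pow_succ]; ring
      _ ≤ M ^ (10 * (d + 1) ^ 3) := by
          apply pow_le_pow_right₀ hM1
          have e : 10 * (d + 1) ^ 3 = ((4 * d + 1) * d * d + 1) +
            (6 * d ^ 3 + 29 * d ^ 2 + 30 * d + 9) := by ring
          rw [e]
          exact Nat.le_add_right _ _
  · have hd2 : (d : ℝ) ≤ M ^ d := by
      have h5 : (d : ℝ) ≤ 2 ^ d := by exact_mod_cast (Nat.lt_two_pow_self (n := d)).le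
      exact le_trans h5 (pow_le_pow_left₀ (by norm_num) h2' d)
    have e1 : (d : ℝ) * W ≤ M ^ d * (M ^ (3 * d + 1) / 2) :=
      mul_le_mul hd2 hWle hW0 (by positivity)
    have e2 : (q : ℝ) ^ d * ((q : ℝ) ^ d * W) ^ d ≤ M ^ d * M ^ ((4 * d + 1) * d) :=
      mul_le_mul hqd hD1 hD10 (by positivity)
    have e3 : (d : ℝ) * W * ((q : ℝ) ^ d * ((q : ℝ) ^ d * W) ^ d) ≤
        (M ^ d * (M ^ (3 * d + 1) / 2)) * (M ^ d * M ^ ((4 * d + 1) * d)) :=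
      mul_le_mul e1 e2 (by positivity) (by positivity)
    have e4 : (M ^ d * (M ^ (3 * d + 1) / 2)) * (M ^ d * M ^ ((4 * d + 1) * d)) =
        M ^ (d + (3 * d + 1) + d + (4 * d + 1) * d) / 2 := by
      rw [pow_add, pow_add, pow_add]
      ring
    have e5 : M ^ (d + (3 * d + 1) + d + (4 * d + 1) * d) ≤ M ^ (10 * (d + 1) ^ 3) := by
      apply pow_le_pow_right₀ hM1
      have e : 10 * (d + 1) ^ 3 = (d + (3 * d + 1) + d + (4 * d + 1) * d) +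
        (10 * d ^ 3 + 26 * d ^ 2 + 24 * d + 9) := by ring
      rw [e]
      exact Nat.le_add_right _ _
    have e6 : M ≤ M ^ (10 * (d + 1) ^ 3) / 2 := by
      have h7 : M ^ 2 ≤ M ^ (10 * (d + 1) ^ 3) := by
        apply pow_le_pow_right₀ hM1
        have e : 10 * (d + 1) ^ 3 = 2 + (10 * d ^ 3 + 30 * d ^ 2 + 30 * d + 8) := by ring
        rw [e]
        exact Nat.le_add_right _ _
      nlinarith
    linarith

theorem coef_bounds {f : ℤ[X][X]} {d m B e : ℕ} (hf : Sized f d m B) {y : Fin d → PowerSeries ℂ}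
    (h : Exps f d e y) (S : ℕ) :
    ∃ q : ℕ, 1 ≤ q ∧ q ≤ cM d m B S ∧
      (∀ i, ∀ k < S, IsIntegral ℤ ((q : ℂ) * PowerSeries.coeff k (y i))) ∧
      ∀ i, ∀ k < S, ‖PowerSeries.coeff k (y i)‖ ≤ cM d m B S := by
  induction S with
  | zero =>
    refine ⟨1, le_refl 1, ?_, ?_, ?_⟩
    · have := (two_le_cM (d := d) (m := m) hf.B2 0).1
      omega
    · intro i k hk
      exact absurd hk (Nat.not_lt_zero k)
    · intro i k hk
      exact absurd hk (Nat.not_lt_zero k)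
  | succ j ih =>
    obtain ⟨q, hq1, hq, hint, hbd⟩ := ih
    have hA : (1 : ℝ) ≤ (cM d m B j : ℝ) := by
      have h1 := (two_le_cM (d := d) (m := m) hf.B2 j).1
      exact_mod_cast (by omega : 1 ≤ cM d m B j)
    obtain ⟨q', h1, h2, h3, h4⟩ := step hf h j q hq1 hA hint hbd
      ((d + 1) * 2 ^ d * ((m + 1) * B) * (j * (cM d m B j : ℝ) + 1) ^ d) rfl
    have h5 := cM_step (j := j) hf.d1 hf.B2 hq
      ((d + 1) * 2 ^ d * ((m + 1) * B) * (j * (cM d m B j : ℝ) + 1) ^ d) rfl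
    refine ⟨q', h1, ?_, h3, ?_⟩
    · exact_mod_cast le_trans h2 h5.1
    · intro i k hk
      exact le_trans (h4 i k hk) h5.2

end Pool.Agent.H87.SX
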