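import Pool.Agent.H87.SX.XCJ

/-! # [SX-XLI] Liouville's inequality for expressions in the Puiseux coefficients

`sg_lio`. Put `z = D * w i`, integral, `≠ 0`, `P = minpoly ℤ z` monic in `ℤ[X]`
(`P.map = minpoly ℚ z`: `minpoly.isIntegrallyClosed_eq_field_fractions'`). The roots of `P` in `ℂ` are
`D *` (roots of `minpoly ℚ (w i)`), so each is `D * w j` for some `j`; they are distinct (`P` is
separable over `ℚ`), so `P.natDegree ≤ d` (card of the root set `≤` card of `Fin d`). `N = |P(0)|`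
is the product of the absolute values of the roots, `≥ 1` (`P` irreducible, `z ≠ 0`), and
`N ≤ (D A)^(natDegree P) ≤ (D A)^d` since `1 ≤ D A`. `P(0) = ± z * (product of the other roots)`, so
`N / z` is integral (or: `P(0) / z = -(∑_{k ≥ 1} P_k z^(k-1))`), and
`1 ≤ N = ‖z‖ * ‖product of the others‖ ≤ ‖z‖ (D A)^d`. -/

namespace Pool.Agent.H87.SX

open Finset Polynomial Pool.Agent.H87.SA2

variable {f : ℤ[X][X]} {d e : ℕ} {y : Fin d → PowerSeries ℂ}

theorem sg_lio (h : Exps f d e y) {w : Fin d → ℂ} (hw : w ∈ Sg y) {D : ℕ} (hD : 1 ≤ D)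
    (hint : ∀ j, IsIntegral ℤ ((D : ℂ) * w j)) {A : ℝ} (hA : 1 ≤ A) (hwA : ∀ j, ‖w j‖ ≤ A)
    (i : Fin d) (hi : w i ≠ 0) :
    ∃ N : ℕ, 1 ≤ N ∧ (N : ℝ) ≤ (D * A) ^ d ∧ IsIntegral ℤ ((N : ℂ) * ((D : ℂ) * w i)⁻¹) ∧
      1 ≤ ‖(D : ℂ) * w i‖ * (D * A) ^ d := by
  classical
  set z : ℂ := (D : ℂ) * w i with hzdef
  have hD0 : (D : ℂ) ≠ 0 := by
    have : D ≠ 0 := by omega
    exact_mod_cast this
  have hz0 : z ≠ 0 := mul_ne_zero hD0 hi
  have hzint : IsIntegral ℤ z := hint i
  have hDA : 1 ≤ (D : ℝ) * A := by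
    have h1 : (1 : ℝ) ≤ D := by exact_mod_cast hD
    nlinarith
  -- the family
  have hw' : (fun j => (D : ℂ) * w j) ∈ Sg y := by
    have h1 : (fun j => (D : ℂ) * w j) = (D : Fin d → ℂ) * w := by
      funext j
      simp
    rw [h1]
    exact mul_mem (natCast_mem (Sg y) D) hw
  set P : ℤ[X] := minpoly ℤ z with hP
  have hPm : P.Monic := minpoly.monic hzint
  have hPQ : minpoly ℚ z = P.map (algebraMap ℤ ℚ) :=
    minpoly.isIntegrallyClosed_eq_field_fractions' ℚ hzint
  have hPC : P.map (algebraMap ℤ ℂ) = (minpoly ℚ z).map (algebraMap ℚ ℂ) := by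
    rw [hPQ, Polynomial.map_map]
    congr 1
  have hQint : IsIntegral ℚ z := hzint.tower_top
  have hsep : (P.map (algebraMap ℤ ℂ)).Separable := by
    rw [hPC]
    exact (Irreducible.separable (minpoly.irreducible hQint)).map
  have hnd : (P.map (algebraMap ℤ ℂ)).roots.Nodup := nodup_roots hsep
  have hmonC : (P.map (algebraMap ℤ ℂ)).Monic := hPm.map _
  set S : Finset ℂ := (P.map (algebraMap ℤ ℂ)).roots.toFinset with hS
  have hSroot : ∀ z' ∈ S, ∃ j, z' = (D : ℂ) * w j := by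
    intro z' hz'
    rw [hS, Multiset.mem_toFinset, mem_roots hmonC.ne_zero, IsRoot.def, hPC,
      eval_map_algebraMap] at hz'
    exact sg_conj h hw' i z' hz'
  have hprod : P.map (algebraMap ℤ ℂ) = ∏ s ∈ S, (X - C s) := by
    have h1 := (IsAlgClosed.splits (P.map (algebraMap ℤ ℂ))).eq_prod_roots_of_monic hmonC
    rw [h1, Finset.prod, hS, Multiset.toFinset_val, Multiset.dedup_eq_self.2 hnd]
  have hzS : z ∈ S := by
    rw [hS, Multiset.mem_toFinset, mem_roots hmonC.ne_zero, IsRoot.def, hPC,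
      eval_map_algebraMap, minpoly.aeval]
  have hScard : S.card ≤ d := by
    have h1 : S ⊆ Finset.univ.image (fun j : Fin d => (D : ℂ) * w j) := by
      intro z' hz'
      obtain ⟨j, hj⟩ := hSroot z' hz'
      exact Finset.mem_image.2 ⟨j, Finset.mem_univ _, hj.symm⟩
    refine (Finset.card_le_card h1).trans (Finset.card_image_le.trans ?_)
    rw [Finset.card_univ, Fintype.card_fin]
  have hSb : ∀ s ∈ S, ‖s‖ ≤ D * A := by
    intro s hs
    obtain ⟨j, rfl⟩ := hSroot s hs
    rw [norm_mul, Complex.norm_natCast]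
    exact mul_le_mul_of_nonneg_left (hwA j) (Nat.cast_nonneg D)
  -- the constant coefficient
  have hc0 : ((P.coeff 0 : ℤ) : ℂ) = ∏ s ∈ S, (0 - s) := by
    have h1 := congrArg (Polynomial.eval 0) hprod
    rw [Polynomial.eval_prod, ← Polynomial.coeff_zero_eq_eval_zero, Polynomial.coeff_map] at h1
    simp only [eval_sub, eval_X, eval_C] at h1
    rw [← h1]
    simp
  have hnorm : ‖((P.coeff 0 : ℤ) : ℂ)‖ = ∏ s ∈ S, ‖s‖ := by
    rw [hc0, norm_prod]
    refine Finset.prod_congr rfl fun s _ => ?_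
    rw [zero_sub, norm_neg]
  have hc0ne : P.coeff 0 ≠ 0 := by
    intro h0
    have h1 : minpoly ℚ z = X := by
      have h2 : (minpoly ℚ z).coeff 0 = 0 := by
        rw [hPQ, Polynomial.coeff_map, h0, map_zero]
      exact absurd ((minpoly.coeff_zero_eq_zero hQint).1 h2) hz0
    have h2 : (minpoly ℚ z).coeff 0 = 0 := by rw [h1, coeff_X_zero]
    exact hz0 ((minpoly.coeff_zero_eq_zero hQint).1 h2)
  set N : ℕ := (P.coeff 0).natAbs with hN
  have hNpos : 1 ≤ N := Nat.one_le_iff_ne_zero.2 (Int.natAbs_ne_zero.2 hc0ne)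
  have hNnorm : (N : ℝ) = ∏ s ∈ S, ‖s‖ := by
    rw [← hnorm, Complex.norm_intCast, hN, Nat.cast_natAbs, Int.cast_abs]
  have hNle : (N : ℝ) ≤ (D * A) ^ d := by
    rw [hNnorm]
    refine (Finset.prod_le_prod (fun s _ => norm_nonneg s) hSb).trans ?_
    rw [Finset.prod_const]
    exact pow_le_pow_right₀ hDA hScard
  refine ⟨N, hNpos, hNle, ?_, ?_⟩
  · -- integrality of the quotient
    have h1 : (P.divX) * X + C (P.coeff 0) = P := divX_mul_X_add P
    have h2 : aeval z P = 0 := minpoly.aeval ℤ z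
    rw [← h1, map_add, map_mul, aeval_X, aeval_C] at h2
    have h3 : ((P.coeff 0 : ℤ) : ℂ) * z⁻¹ = - aeval z P.divX := by
      have h4 : (algebraMap ℤ ℂ) (P.coeff 0) = ((P.coeff 0 : ℤ) : ℂ) := by simp
      rw [h4] at h2
      field_simp
      linear_combination h2
    have h4 : IsIntegral ℤ (aeval z P.divX) := by
      have h5 : aeval z P.divX ∈ Algebra.adjoin ℤ {z} := aeval_mem_adjoin_singleton ℤ z
      exact adjoin_le_integralClosure hzint h5
    rcases Int.natAbs_eq (P.coeff 0) with h6 | h6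
    · have h7 : ((N : ℕ) : ℂ) = ((P.coeff 0 : ℤ) : ℂ) := by
        rw [h6]
        simp [hN]
      rw [h7, h3]
      exact h4.neg
    · have h7 : ((N : ℕ) : ℂ) = -((P.coeff 0 : ℤ) : ℂ) := by
        rw [h6]
        simp [hN]
      rw [h7, neg_mul, h3, neg_neg]
      exact h4
  · have h1 : (1 : ℝ) ≤ N := by exact_mod_cast hNpos
    rw [hNnorm, ← Finset.mul_prod_erase S _ hzS] at h1
    refine h1.trans (mul_le_mul_of_nonneg_left ?_ (norm_nonneg z))
    refine (Finset.prod_le_prod (fun s _ => norm_nonneg s)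
      (fun s hs => hSb s (Finset.mem_of_mem_erase hs))).trans ?_
    rw [Finset.prod_const]
    exact pow_le_pow_right₀ hDA ((Finset.card_erase_le).trans hScard)

end Pool.Agent.H87.SX
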