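import Pool.Agent.H87.SX.XPE

/-! # [SX-XOR] The order of the derivative at the Puiseux expansions

`F = f.map (tq e 1)`, `F (y i) = 0` (`exps_root`). Map `hbez` by `tq e 1` and evaluate at `y i`:
`b(y i) F'(y i) = tq e 1 c` (as in `hder` in the proof of `exists_exps`, `XPE.lean`). `c ≠ 0`: some
coefficient `c_k ≠ 0`, `k ≤ natDegree c ≤ M`, and the coefficient of `T^(e k)` of `tq e 1 c` is
`c_k` (`tq_coeff`, `q = 1`). If all coefficients `0 .. e M` of `F'(y i)` vanished, then
`T^(e M + 1)` would divide `F'(y i)`, hence `tq e 1 c` (`PowerSeries.X_pow_dvd_iff`), a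
contradiction. Take the least `s` with nonzero coefficient (`Nat.find`).
`sep_order`: `F'(y i) = ∏_{k ≠ i} (y i - y k)` (differentiate `h.split`:
`Polynomial.derivative_prod`, or write `F = (X - C (y i)) * G` and `F'(y i) = G(y i)`); if the
coefficients `0 .. e M` of `y i`, `y j` agree, `i ≠ j`, then `T^(e M + 1)` divides `y i - y j`, hence
`F'(y i)`, a contradiction to `ord_deriv`. -/

namespace Pool.Agent.H87.SX

open Finset Polynomial Pool.Agent.H87.SA2

theorem ord_deriv {f : ℤ[X][X]} {d e : ℕ} {y : Fin d → PowerSeries ℂ} (h : Exps f d e y)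
    {a b : ℤ[X][X]} {c : ℤ[X]} (hc : c ≠ 0) (hbez : a * f + b * derivative f = C c) {M : ℕ}
    (hM : c.natDegree ≤ M) (i : Fin d) :
    ∃ s ≤ e * M, (∀ k < s, PowerSeries.coeff k ((derivative (f.map (tq e 1))).eval (y i)) = 0) ∧
      PowerSeries.coeff s ((derivative (f.map (tq e 1))).eval (y i)) ≠ 0 := by
  classical
  have h1 : (b.map (tq e 1)).eval (y i) * (derivative (f.map (tq e 1))).eval (y i) = tq e 1 c := by
    have h2 := congrArg (fun p => (p.map (tq e 1)).eval (y i)) hbez
    simp only [Polynomial.map_add, Polynomial.map_mul, map_C, eval_add, eval_mul, eval_C,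
      ← derivative_map, exps_root h i, mul_zero, zero_add] at h2
    exact h2
  have hk : c.coeff c.natDegree ≠ 0 := by
    rw [coeff_natDegree]
    exact leadingCoeff_ne_zero.mpr hc
  have hex : ∃ s, s ≤ e * M ∧
      PowerSeries.coeff s ((derivative (f.map (tq e 1))).eval (y i)) ≠ 0 := by
    by_contra hno
    push Not at hno
    have h3 : (PowerSeries.X : PowerSeries ℂ) ^ (e * M + 1) ∣
        (derivative (f.map (tq e 1))).eval (y i) := by
      rw [PowerSeries.X_pow_dvd_iff]
      intro m hm
      exact hno m (by omega)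
    have h4 : (PowerSeries.X : PowerSeries ℂ) ^ (e * M + 1) ∣ tq e 1 c := by
      rw [← h1]
      exact h3.mul_left _
    rw [PowerSeries.X_pow_dvd_iff] at h4
    have h5 := h4 (e * c.natDegree) (by
      have := Nat.mul_le_mul_left e hM
      omega)
    rw [tq_coeff e 1 h.e1] at h5
    apply hk
    simpa using h5
  refine ⟨Nat.find hex, (Nat.find_spec hex).1, ?_, (Nat.find_spec hex).2⟩
  intro k hk2
  have h6 := Nat.find_min hex hk2
  push Not at h6
  exact h6 (le_trans hk2.le (Nat.find_spec hex).1)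

theorem sep_order {f : ℤ[X][X]} {d e : ℕ} {y : Fin d → PowerSeries ℂ} (h : Exps f d e y)
    {a b : ℤ[X][X]} {c : ℤ[X]} (hc : c ≠ 0) (hbez : a * f + b * derivative f = C c) {M : ℕ}
    (hM : c.natDegree ≤ M) (i j : Fin d)
    (hij : ∀ k ≤ e * M, PowerSeries.coeff k (y i) = PowerSeries.coeff k (y j)) : i = j := by
  classical
  by_contra hne
  obtain ⟨s, hs, -, hs2⟩ := ord_deriv h hc hbez hM i
  apply hs2
  have h1 : (PowerSeries.X : PowerSeries ℂ) ^ (e * M + 1) ∣ y i - y j := by
    rw [PowerSeries.X_pow_dvd_iff]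
    intro m hm
    rw [map_sub, hij m (by omega), sub_self]
  have h2 : f.map (tq e 1) = (X - C (y i)) * ((X - C (y j)) *
      ∏ k ∈ (Finset.univ.erase i).erase j, (X - C (y k))) := by
    rw [h.split, ← Finset.mul_prod_erase Finset.univ _ (Finset.mem_univ i),
      ← Finset.mul_prod_erase (Finset.univ.erase i) _
        (Finset.mem_erase.mpr ⟨fun h => hne h.symm, Finset.mem_univ j⟩)]
  have h3 : (derivative (f.map (tq e 1))).eval (y i) = (y i - y j) *
      (∏ k ∈ (Finset.univ.erase i).erase j, (X - C (y k))).eval (y i) := by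
    rw [h2, derivative_mul]
    simp
  have h4 : (PowerSeries.X : PowerSeries ℂ) ^ (e * M + 1) ∣
      (derivative (f.map (tq e 1))).eval (y i) := by
    rw [h3]
    exact h1.mul_right _
  rw [PowerSeries.X_pow_dvd_iff] at h4
  exact h4 s (by omega)

end Pool.Agent.H87.SX
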