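import Pool.Agent.H87.SX.Defs

/-! # [SX-XPE] Existence of the Puiseux expansions -/

namespace Pool.Agent.H87.SX

open Finset Polynomial Pool.Agent.H87.SA2

theorem exps_root {f : ℤ[X][X]} {d e : ℕ} {y : Fin d → PowerSeries ℂ} (h : Exps f d e y)
    (i : Fin d) : (f.map (tq e 1)).eval (y i) = 0 := by
  rw [h.split, eval_prod]
  exact Finset.prod_eq_zero (Finset.mem_univ i) (by simp)

theorem exps_int0 {f : ℤ[X][X]} (hf : f.Monic) {d e : ℕ} {y : Fin d → PowerSeries ℂ}
    (h : Exps f d e y) (i : Fin d) : IsIntegral ℤ (PowerSeries.constantCoeff (y i)) := by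
  refine ⟨f.map (evalRingHom (0 : ℤ)), hf.map _, ?_⟩
  have h1 := congrArg (PowerSeries.constantCoeff (R := ℂ)) (exps_root h i)
  rw [map_zero, eval_map, Polynomial.hom_eval₂, tq_const e h.e1] at h1
  rw [Polynomial.eval₂_map]
  exact h1

theorem exists_exps (f : ℤ[X][X]) (hf : f.Monic) (a b : ℤ[X][X]) (c : ℤ[X]) (hc : c ≠ 0)
    (hbez : a * f + b * derivative f = C c) (d : ℕ) (hd : f.natDegree = d) :
    ∃ (e : ℕ) (y : Fin d → PowerSeries ℂ), e ≤ d.factorial ∧ Exps f d e y := by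
  classical
  have := pd_qbar_alg
  obtain ⟨σ⟩ : Nonempty (AlgebraicClosure ℚ →ₐ[ℚ] ℂ) := ⟨IsAlgClosed.lift⟩
  obtain ⟨τ, hτ⟩ : ∃ τ : ℤ[X] →+* PowerSeries (AlgebraicClosure ℚ),
      τ = eval₂RingHom (Int.castRingHom _) PowerSeries.X := ⟨_, rfl⟩
  obtain ⟨e, he, hed, hs⟩ := newton_puiseux d (f.map τ) (hf.map τ)
    ((hf.natDegree_map τ).trans hd)
  have he1 : 1 ≤ e := Nat.one_le_iff_ne_zero.mpr he
  have hcomp : (PowerSeries.map (σ : AlgebraicClosure ℚ →+* ℂ)).comp
      ((exr (AlgebraicClosure ℚ) e he).comp τ) = tq e 1 := by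
    apply Polynomial.ringHom_ext
    · intro a
      simp [tq, hτ]
    · simp [tq, hτ, exr_X]
  obtain ⟨ξ, hξ⟩ := pd_splits_fin ((f.map τ).map (exr (AlgebraicClosure ℚ) e he))
    ((hf.map τ).map _) hs d (by rw [(hf.map τ).natDegree_map, hf.natDegree_map, hd])
  obtain ⟨y, hy⟩ : ∃ y : Fin d → PowerSeries ℂ,
      ∀ i, y i = PowerSeries.map (σ : AlgebraicClosure ℚ →+* ℂ) (ξ i) := ⟨_, fun i => rfl⟩
  have hP : f.map (tq e 1) = ∏ i, (X - C (y i)) := by
    rw [← hcomp, ← Polynomial.map_map, ← Polynomial.map_map, hξ, Polynomial.map_prod]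
    refine Finset.prod_congr rfl fun i _ => ?_
    rw [Polynomial.map_sub, map_X, map_C, hy]
  -- roots
  have hroot : ∀ i, (f.map (tq e 1)).eval (y i) = 0 := by
    intro i
    rw [hP, eval_prod]
    exact Finset.prod_eq_zero (Finset.mem_univ i) (by simp)
  have hder : ∀ i, (derivative (f.map (tq e 1))).eval (y i) ≠ 0 := by
    intro i h0
    have h1 := congrArg (fun p => (p.map (tq e 1)).eval (y i)) hbez
    simp only [Polynomial.map_add, Polynomial.map_mul, map_C, eval_add, eval_mul, eval_C,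
      ← derivative_map, hroot i, h0, mul_zero, add_zero] at h1
    exact hc (tq_injective he1 le_rfl (by rw [← h1, map_zero]))
  have hyinj : Function.Injective y := by
    intro i j hij
    by_contra hne
    apply hder i
    have h2 : f.map (tq e 1) = (X - C (y i)) * ((X - C (y i)) *
        ∏ k ∈ (Finset.univ.erase i).erase j, (X - C (y k))) := by
      rw [hP, ← Finset.mul_prod_erase Finset.univ _ (Finset.mem_univ i),
        ← Finset.mul_prod_erase (Finset.univ.erase i) _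
          (Finset.mem_erase.mpr ⟨fun h => hne h.symm, Finset.mem_univ j⟩), ← hij]
    rw [h2]
    simp [derivative_mul]
  have halg : ∀ i k, IsAlgebraic ℤ (PowerSeries.coeff k (y i)) := by
    intro i k
    rw [IsFractionRing.isAlgebraic_iff ℤ ℚ ℂ]
    rw [hy, PowerSeries.coeff_map]
    have h1 : IsAlgebraic ℚ (PowerSeries.coeff k (ξ i)) := Algebra.IsAlgebraic.isAlgebraic _
    exact h1.algHom σ
  exact ⟨e, y, hed, he1, hP, hyinj, halg⟩

end Pool.Agent.H87.SX
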