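import Pool.Agent.H87.SX.Defs
import Pool.Agent.H8.KF.Adj
import Mathlib.RingTheory.Polynomial.Resultant.Basic

/-! # [SX-XRD] Degree and height of a determinant

`c = f.resultant (derivative f) d (d - 1)` (`f` as a polynomial in `X` over `ℤ[t]`).
`Polynomial.exists_mul_add_mul_eq_C_resultant` (Mathlib, `RingTheory/Polynomial/Resultant/Basic.lean`)
gives `f * p + f' * q = C c` (`d ≠ 0`).
`c` is the determinant of the Sylvester matrix of size `2 d - 1`, whose entries are coefficients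
of `f` or `f'` (`Polynomial.sylvester`), of degree `≤ m` in `t`, and of `ℓ¹` norm `≤ d (m + 1) B`
(coefficients of `f'`: `(j + 1) f_(j+1)`, `j + 1 ≤ d`).
`det_bounds`: Leibniz formula (`Matrix.det_apply'`): degree `≤ K m`, `ℓ¹` norm `≤ K! L^K`; for the
`ℓ¹` norm use `Pool.Agent.H8.KF.adjW (fun a : ℤ => (|a| : ℝ)) 1` (submultiplicative, subadditive:
`adjW_mul_le`, `adjW_add_le` in `Pool/Agent/H8/KF/Adj.lean`) or any other way
(for example induct with `Polynomial.sum`); each coefficient is at most the `ℓ¹` norm.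
`cR d m B = (2 d^2 (m + 1) B)^(2 d) ≥ (2 d - 1)! (d (m + 1) B)^(2 d - 1)`. -/

namespace Pool.Agent.H87.SX

open Finset Polynomial Pool.Agent.H87.SA2

/-- the `ℓ¹` norm -/
noncomputable def l1R (p : ℤ[X]) : ℝ :=
  Pool.Agent.H8.KF.adjW (fun a : ℤ => |(a : ℝ)|) 1 p

theorem l1R_eq (p : ℤ[X]) {K : ℕ} (hK : p.natDegree ≤ K) :
    l1R p = ∑ l ∈ range (K + 1), |((p.coeff l : ℤ) : ℝ)| := by
  unfold l1R
  rw [Pool.Agent.H8.KF.adjW_eq Pool.Agent.H72.ES.subMul_intAbs 1 p hK]
  unfold Pool.Agent.H72.ES.wn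
  refine sum_congr rfl fun l _ => ?_
  rw [Polynomial.coeff_coe, one_pow, mul_one]

theorem l1R_nonneg (p : ℤ[X]) : 0 ≤ l1R p :=
  Pool.Agent.H8.KF.adjW_nonneg Pool.Agent.H72.ES.subMul_intAbs zero_le_one p

theorem l1R_one : l1R 1 = 1 := by
  rw [l1R_eq 1 (K := 0) (by simp)]
  simp

theorem l1R_prod {ι : Type} (s : Finset ι) (g : ι → ℤ[X]) :
    l1R (∏ i ∈ s, g i) ≤ ∏ i ∈ s, l1R (g i) := by
  classical
  induction s using Finset.induction_on with
  | empty => simp [l1R_one]
  | insert a s ha ih =>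
    rw [prod_insert ha, prod_insert ha]
    exact (Pool.Agent.H8.KF.adjW_mul_le Pool.Agent.H72.ES.subMul_intAbs zero_le_one _ _).trans
      (mul_le_mul_of_nonneg_left ih (l1R_nonneg _))

theorem l1R_sum {ι : Type} (s : Finset ι) (g : ι → ℤ[X]) :
    l1R (∑ i ∈ s, g i) ≤ ∑ i ∈ s, l1R (g i) := by
  classical
  induction s using Finset.induction_on with
  | empty =>
    simp only [sum_empty]
    exact (Pool.Agent.H8.KF.adjW_zero Pool.Agent.H72.ES.subMul_intAbs 1).le
  | insert a s ha ih =>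
    rw [sum_insert ha, sum_insert ha]
    exact (Pool.Agent.H8.KF.adjW_add_le Pool.Agent.H72.ES.subMul_intAbs zero_le_one _ _).trans
      (add_le_add_right ih _)

theorem det_bounds {K m L : ℕ} (M : Matrix (Fin K) (Fin K) ℤ[X])
    (hdeg : ∀ i j, (M i j).natDegree ≤ m)
    (hl : ∀ i j, ∑ l ∈ range (m + 1), |(M i j).coeff l| ≤ (L : ℤ)) :
    M.det.natDegree ≤ K * m ∧ ∀ l, |M.det.coeff l| ≤ ((K.factorial * L ^ K : ℕ) : ℤ) := by
  classical
  have hL : ∀ i j, l1R (M i j) ≤ (L : ℝ) := by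
    intro i j
    rw [l1R_eq _ (hdeg i j)]
    have := hl i j
    have h2 : ((∑ l ∈ range (m + 1), |(M i j).coeff l| : ℤ) : ℝ) ≤ ((L : ℤ) : ℝ) := by
      exact_mod_cast this
    push_cast at h2
    exact h2
  have hterm : ∀ σ : Equiv.Perm (Fin K),
      (((Equiv.Perm.sign σ : ℤ) : ℤ[X]) * ∏ i, M (σ i) i).natDegree ≤ K * m := by
    intro σ
    refine natDegree_mul_le.trans ?_
    rw [natDegree_intCast, zero_add]
    refine (natDegree_prod_le _ _).trans ?_
    calc ∑ i : Fin K, (M (σ i) i).natDegree ≤ ∑ _i : Fin K, m := sum_le_sum fun i _ => hdeg _ _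
      _ = K * m := by simp
  have hdet : M.det.natDegree ≤ K * m := by
    rw [Matrix.det_apply']
    exact natDegree_sum_le_of_forall_le _ _ fun σ _ => hterm σ
  refine ⟨hdet, ?_⟩
  have hl1 : l1R M.det ≤ (K.factorial : ℝ) * (L : ℝ) ^ K := by
    rw [Matrix.det_apply']
    refine (l1R_sum _ _).trans ?_
    calc ∑ σ : Equiv.Perm (Fin K), l1R (((Equiv.Perm.sign σ : ℤ) : ℤ[X]) * ∏ i, M (σ i) i)
        ≤ ∑ _σ : Equiv.Perm (Fin K), (L : ℝ) ^ K := by
          refine sum_le_sum fun σ _ => ?_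
          have h1 : l1R (((Equiv.Perm.sign σ : ℤ) : ℤ[X]) * ∏ i, M (σ i) i) =
              l1R (∏ i, M (σ i) i) := by
            rcases Int.units_eq_one_or (Equiv.Perm.sign σ) with h | h
            · rw [h]; simp
            · rw [h]
              simp only [Units.val_neg, Units.val_one, Int.cast_neg, Int.cast_one, neg_mul, one_mul]
              exact Pool.Agent.H8.KF.adjW_neg Pool.Agent.H72.ES.subMul_intAbs 1 _
          rw [h1]
          refine (l1R_prod _ _).trans ?_
          calc ∏ i : Fin K, l1R (M (σ i) i) ≤ ∏ _i : Fin K, (L : ℝ) :=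
                prod_le_prod (fun i _ => l1R_nonneg _) fun i _ => hL _ _
            _ = (L : ℝ) ^ K := by simp
      _ = (K.factorial : ℝ) * (L : ℝ) ^ K := by
          rw [sum_const, card_univ, Fintype.card_perm, Fintype.card_fin, nsmul_eq_mul]
  intro l
  have hcoef : |((M.det.coeff l : ℤ) : ℝ)| ≤ l1R M.det := by
    rcases le_or_gt l M.det.natDegree with h | h
    · rw [l1R_eq M.det le_rfl]
      exact single_le_sum (f := fun l => |((M.det.coeff l : ℤ) : ℝ)|) (fun i _ => abs_nonneg _)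
        (mem_range.2 (Nat.lt_succ_of_le h))
    · rw [coeff_eq_zero_of_natDegree_lt h]
      simpa using l1R_nonneg M.det
  have h3 := hcoef.trans hl1
  have h4 : ((|M.det.coeff l| : ℤ) : ℝ) ≤ (((K.factorial * L ^ K : ℕ) : ℤ) : ℝ) := by
    push_cast
    exact h3
  exact_mod_cast h4

end Pool.Agent.H87.SX
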