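import Pool.Agent.H87.SX.Defs

/-! # [SX-XRL] The algebraic equation of the next Puiseux coefficient

Let `F = f.map (tq e 1)`, `u = tru j x`, `z = mk (fun k => coeff (j + k) x)`, so `x = u + T^j z`.
Taylor: `0 = F(x) = ∑_{r ≤ d} (hasseDeriv r F).eval u * (T^j z)^r = ∑_{r ≤ d} G_r z^r`,
`G_r = T^(j r) (hasseDeriv r F).eval u` (`Polynomial.taylor_coeff`, `Polynomial.taylor_eval`,
`Polynomial.eval_eq_sum_range`; `taylor u F` has degree `d`). `cw f e j l r x = coeff l (G_r)` by
definition. `G_d = T^(j d)` (`F` is monic of degree `d`: the coefficient `d` of `taylor u F` is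
the leading coefficient, `Polynomial.taylor_natDegree`, `leadingCoeff`), so some
`coeff l (G_r) ≠ 0`, `r ≤ d`; let `l` be minimal (`Nat.find`) such that `coeff l (G_r) ≠ 0` for some
`r ≤ d`, and `r0 ≤ d` the largest `r` with `coeff l (G_r) ≠ 0`. The coefficient of `T^l` in
`∑ G_r z^r = 0` is `∑_r coeff l (G_r) (coeff 0 z)^r` as all lower coefficients of the `G_r` vanish
(`PowerSeries.coeff_mul`, or write `G_r = T^l G'_r`), `coeff 0 z = coeff j x`. If `r0 = 0` the relation is
`coeff l (G_0) = 0`, a contradiction; so `1 ≤ r0`. -/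

namespace Pool.Agent.H87.SX

open Finset Polynomial Pool.Agent.H87.SA2

theorem cw_rel {f : ℤ[X][X]} {d : ℕ} (hf : f.Monic) (hd : f.natDegree = d) (e j : ℕ)
    (x : PowerSeries ℂ) (hx : (f.map (tq e 1)).eval x = 0) :
    ∃ l r0 : ℕ, 1 ≤ r0 ∧ r0 ≤ d ∧ cw f e j l r0 x ≠ 0 ∧
      ∑ r ∈ range (r0 + 1), cw f e j l r x * PowerSeries.coeff j x ^ r = 0 := by
  set F : (PowerSeries ℂ)[X] := f.map (tq e 1) with hF
  have hFm : F.Monic := hf.map _
  have hFd : F.natDegree = d := by rw [hF, hf.natDegree_map, hd]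
  set u : PowerSeries ℂ := tru j x with hu
  set z : PowerSeries ℂ := PowerSeries.mk (fun k => PowerSeries.coeff (j + k) x) with hz
  have hxu : x = PowerSeries.X ^ j * z + u := by
    ext k
    rw [map_add, hu, tru, PowerSeries.coeff_mk, PowerSeries.coeff_X_pow_mul']
    by_cases hk : j ≤ k
    · rw [if_pos hk, if_neg (by omega), hz, PowerSeries.coeff_mk, add_zero]
      congr 2
      omega
    · rw [if_neg hk, if_pos (by omega), zero_add]
  set G : ℕ → PowerSeries ℂ := fun r => PowerSeries.X ^ (j * r) * (hasseDeriv r F).eval u with hG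
  have hcw : ∀ l r, cw f e j l r x = PowerSeries.coeff l (G r) := fun l r => rfl
  have hsum : ∑ r ∈ range (d + 1), G r * z ^ r = 0 := by
    have h1 : (taylor u F).eval (PowerSeries.X ^ j * z) = 0 := by
      rw [taylor_eval, ← hxu]
      exact hx
    rw [Polynomial.eval_eq_sum_range' (n := d + 1) (by rw [natDegree_taylor, hFd]; omega)] at h1
    rw [← h1]
    refine Finset.sum_congr rfl fun r _ => ?_
    rw [taylor_coeff, hG, mul_pow, ← pow_mul]
    ring
  have hGd : PowerSeries.coeff (j * d) (G d) = 1 := by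
    have h1 : (hasseDeriv d F).eval u = 1 := by
      rw [← taylor_coeff]
      have h2 : (taylor u F).leadingCoeff = 1 := by
        rw [leadingCoeff_taylor]
        exact hFm
      rw [Polynomial.leadingCoeff, natDegree_taylor, hFd] at h2
      exact h2
    simp only [hG]
    rw [h1, mul_one, PowerSeries.coeff_X_pow, if_pos rfl]
  classical
  have hex : ∃ l, ∃ r, r ≤ d ∧ PowerSeries.coeff l (G r) ≠ 0 :=
    ⟨j * d, d, le_rfl, by rw [hGd]; exact one_ne_zero⟩
  obtain ⟨l, ⟨r1, hr1, hr1'⟩, hlmin⟩ : ∃ l, (∃ r, r ≤ d ∧ PowerSeries.coeff l (G r) ≠ 0) ∧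
      ∀ l' < l, ¬ ∃ r, r ≤ d ∧ PowerSeries.coeff l' (G r) ≠ 0 :=
    ⟨Nat.find hex, Nat.find_spec hex, fun l' hl' => Nat.find_min hex hl'⟩
  have hdiv : ∀ r, r ≤ d → ∃ H : PowerSeries ℂ, G r = PowerSeries.X ^ l * H := by
    intro r hr
    have h1 : (PowerSeries.X : PowerSeries ℂ) ^ l ∣ G r := by
      rw [PowerSeries.X_pow_dvd_iff]
      intro k hk
      by_contra hne
      exact hlmin k hk ⟨r, hr, hne⟩
    exact h1
  have hrel : ∑ r ∈ range (d + 1), PowerSeries.coeff l (G r) * PowerSeries.coeff j x ^ r = 0 := by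
    choose! H hH using hdiv
    have h1 : PowerSeries.X ^ l * ∑ r ∈ range (d + 1), H r * z ^ r = 0 := by
      rw [← hsum, Finset.mul_sum]
      refine Finset.sum_congr rfl fun r hr => ?_
      rw [hH r (by rw [Finset.mem_range] at hr; omega), mul_assoc]
    have h2 : ∑ r ∈ range (d + 1), H r * z ^ r = 0 := by
      rcases mul_eq_zero.1 h1 with h3 | h3
      · exact absurd h3 (pow_ne_zero _ PowerSeries.X_ne_zero)
      · exact h3
    have h3 := congrArg (PowerSeries.constantCoeff) h2
    rw [map_sum, map_zero] at h3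
    rw [← h3]
    refine Finset.sum_congr rfl fun r hr => ?_
    have h4 : PowerSeries.coeff l (G r) = PowerSeries.constantCoeff (H r) := by
      rw [hH r (by rw [Finset.mem_range] at hr; omega), PowerSeries.coeff_X_pow_mul', if_pos le_rfl,
        Nat.sub_self, PowerSeries.coeff_zero_eq_constantCoeff_apply]
    have h5 : PowerSeries.coeff j x = PowerSeries.constantCoeff z := by
      rw [← PowerSeries.coeff_zero_eq_constantCoeff_apply, hz, PowerSeries.coeff_mk, add_zero]
    rw [h4, h5, map_mul, map_pow]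
  obtain ⟨r0, hr0d, hr0, hr0max⟩ : ∃ r0, r0 ≤ d ∧ PowerSeries.coeff l (G r0) ≠ 0 ∧
      ∀ r, r0 < r → r ≤ d → PowerSeries.coeff l (G r) = 0 := by
    refine ⟨Nat.findGreatest (fun r => PowerSeries.coeff l (G r) ≠ 0) d, Nat.findGreatest_le d,
      Nat.findGreatest_spec (P := fun r => PowerSeries.coeff l (G r) ≠ 0) hr1 hr1', ?_⟩
    intro r h1 h2
    by_contra h3
    exact Nat.findGreatest_is_greatest h1 h2 h3
  have hrel' : ∑ r ∈ range (r0 + 1), PowerSeries.coeff l (G r) * PowerSeries.coeff j x ^ r = 0 := by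
    rw [← hrel]
    refine Finset.sum_subset (Finset.range_mono (by omega)) fun r hr hr' => ?_
    rw [Finset.mem_range] at hr hr'
    rw [hr0max r (by omega) (by omega), zero_mul]
  refine ⟨l, r0, ?_, hr0d, hr0, hrel'⟩
  by_contra hlt
  have h0 : r0 = 0 := by omega
  rw [h0] at hrel' hr0
  simp at hrel'
  exact hr0 hrel'

end Pool.Agent.H87.SX
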