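import Pool.Agent.H87.SX.XRD
import Mathlib.RingTheory.Polynomial.Resultant.Basic

/-! # [SX-XRS] The discriminant: Bezout identity with degree and height bounds

`c = f.resultant (derivative f) d (d - 1)` (`f` as a polynomial in `X` over `ℤ[t]`).
`Polynomial.exists_mul_add_mul_eq_C_resultant` (Mathlib, `RingTheory/Polynomial/Resultant/Basic.lean`)
gives `f * p + f' * q = C c` (`d ≠ 0`).
`c` is the determinant of the Sylvester matrix of size `2 d - 1`, whose entries are coefficients
of `f` or `f'` (`Polynomial.sylvester`), of degree `≤ m` in `t`, and of `ℓ¹` norm `≤ d (m + 1) B`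
(coefficients of `f'`: `(j + 1) f_(j+1)`, `j + 1 ≤ d`).
`det_bounds`: Leibniz formula (`Matrix.det_apply'`): degree `≤ K m`, `ℓ¹` norm `≤ K! L^K`; for the
`ℓ¹` norm use `Pool.Agent.H8.KF.adjW (fun a : ℤ => (|a| : ℝ)) 1` (submultiplicative, subadditive:
`adjW_mul_le`, `adjW_add_le` in `Pool/Agent/H8/KF/Adj.lean`) or any other way
(for example induct with `Polynomial.sum`); each coefficient is at most the `ℓ¹` norm.
`cR d m B = (2 d^2 (m + 1) B)^(2 d) ≥ (2 d - 1)! (d (m + 1) B)^(2 d - 1)`. -/

namespace Pool.Agent.H87.SX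

open Finset Polynomial Pool.Agent.H87.SA2

/-- bound for the coefficients of the discriminant -/
def cR (d m B : ℕ) : ℕ := (2 * d ^ 2 * (m + 1) * B) ^ (2 * d)

theorem res_entry_deg {f : ℤ[X][X]} {d m B : ℕ} (hf : Sized f d m B) (n : ℕ) :
    ((derivative f).coeff n).natDegree ≤ m := by
  rw [coeff_derivative]
  have h : ((n : ℤ[X]) + 1) = C ((n : ℤ) + 1) := by simp
  rw [h]
  refine le_trans (natDegree_mul_C_le _ _) (hf.mdeg _)

theorem res_entry_l1 {f : ℤ[X][X]} {d m B : ℕ} (hf : Sized f d m B) (n : ℕ) :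
    ∑ l ∈ range (m + 1), |(f.coeff n).coeff l| ≤ ((d * (m + 1) * B : ℕ) : ℤ) := by
  have h1 : ∑ l ∈ range (m + 1), |(f.coeff n).coeff l| ≤ ∑ _l ∈ range (m + 1), (B : ℤ) :=
    Finset.sum_le_sum fun l _ => hf.bd n l
  refine h1.trans ?_
  rw [Finset.sum_const, card_range, nsmul_eq_mul]
  have hd := hf.d1
  have h2 : (m + 1) * B ≤ d * (m + 1) * B := by
    rw [mul_assoc]
    exact Nat.le_mul_of_pos_left _ hd
  exact_mod_cast h2

theorem res_entry_l1' {f : ℤ[X][X]} {d m B : ℕ} (hf : Sized f d m B) (n : ℕ) :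
    ∑ l ∈ range (m + 1), |((derivative f).coeff n).coeff l| ≤ ((d * (m + 1) * B : ℕ) : ℤ) := by
  have hc : ∀ l, ((derivative f).coeff n).coeff l = (f.coeff (n + 1)).coeff l * ((n : ℤ) + 1) := by
    intro l
    rw [coeff_derivative]
    have h : ((n : ℤ[X]) + 1) = C ((n : ℤ) + 1) := by simp
    rw [h, coeff_mul_C]
  have hb : ∀ l ∈ range (m + 1), |((derivative f).coeff n).coeff l| ≤ ((d * B : ℕ) : ℤ) := by
    intro l _
    rw [hc]
    by_cases hn : n + 1 ≤ d
    · rw [abs_mul]
      have h1 : |((n : ℤ) + 1)| = (n : ℤ) + 1 := abs_of_nonneg (by positivity)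
      rw [h1]
      have h2 := hf.bd (n + 1) l
      have h3 : ((n : ℤ) + 1) ≤ (d : ℤ) := by exact_mod_cast hn
      push_cast
      calc |(f.coeff (n + 1)).coeff l| * ((n : ℤ) + 1) ≤ (B : ℤ) * (d : ℤ) := by
            apply mul_le_mul h2 h3 (by positivity) (by positivity)
        _ = (d : ℤ) * B := mul_comm _ _
    · have h0 : f.coeff (n + 1) = 0 := coeff_eq_zero_of_natDegree_lt (by rw [hf.deg]; omega)
      rw [h0]
      simp
      positivity
  refine (Finset.sum_le_sum hb).trans ?_
  rw [Finset.sum_const, card_range, nsmul_eq_mul]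
  have h2 : (m + 1) * (d * B) = d * (m + 1) * B := by ring
  rw [← h2]
  push_cast
  exact le_refl _

theorem res_bounds {f : ℤ[X][X]} {d m B : ℕ} (hf : Sized f d m B) :
    (f.resultant (derivative f) d (d - 1)).natDegree ≤ 2 * d * m ∧
      ∀ l, |(f.resultant (derivative f) d (d - 1)).coeff l| ≤ (cR d m B : ℤ) := by
  have hd := hf.d1
  have hent : ∀ i j : Fin (d + (d - 1)),
      (sylvester f (derivative f) d (d - 1) i j).natDegree ≤ m ∧
      ∑ l ∈ range (m + 1), |(sylvester f (derivative f) d (d - 1) i j).coeff l|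
        ≤ ((d * (m + 1) * B : ℕ) : ℤ) := by
    intro i j
    rw [sylvester, Matrix.of_apply]
    induction j using Fin.addCases with
    | left j =>
      rw [Fin.addCases_left]
      split_ifs
      · exact ⟨res_entry_deg hf _, res_entry_l1' hf _⟩
      · simp
        positivity
    | right j =>
      rw [Fin.addCases_right]
      split_ifs
      · exact ⟨hf.mdeg _, res_entry_l1 hf _⟩
      · simp
        positivity
  obtain ⟨h1, h2⟩ := det_bounds (K := d + (d - 1)) (m := m) (L := d * (m + 1) * B)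
    (sylvester f (derivative f) d (d - 1)) (fun i j => (hent i j).1) (fun i j => (hent i j).2)
  constructor
  · refine le_trans h1 ?_
    apply Nat.mul_le_mul_right
    omega
  · intro l
    refine (h2 l).trans ?_
    rw [Nat.cast_le]
    unfold cR
    have hB : 1 ≤ B := by have := hf.B2; omega
    have hbase : 1 ≤ 2 * d ^ 2 * (m + 1) * B := by
      have : 0 < 2 * d ^ 2 * (m + 1) * B := by positivity
      exact this
    calc (d + (d - 1)).factorial * (d * (m + 1) * B) ^ (d + (d - 1))
        ≤ (2 * d) ^ (d + (d - 1)) * (d * (m + 1) * B) ^ (d + (d - 1)) := by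
          apply Nat.mul_le_mul_right
          refine (Nat.factorial_le_pow _).trans ?_
          exact Nat.pow_le_pow_left (by omega) _
      _ = (2 * d ^ 2 * (m + 1) * B) ^ (d + (d - 1)) := by
          rw [← mul_pow]
          congr 1
          ring
      _ ≤ (2 * d ^ 2 * (m + 1) * B) ^ (2 * d) := Nat.pow_le_pow_right hbase (by omega)

end Pool.Agent.H87.SX
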