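import Pool.Agent.H87.SX.XRS
import Pool.Agent.H87.SA2.RAD

/-! # [SX-XRZ] The discriminant of a squarefree monic polynomial does not vanish

`res_ne`: let `L = FractionRing ℤ[X]`. `f` squarefree and monic over the UFD `ℤ[X]` implies that
`f.map (algebraMap ℤ[X] L)` is squarefree, hence separable (characteristic `0`), i.e. coprime to its
derivative; all this is in the proof in `Pool/Agent/H87/SA2/RAD.lean` (imported; extract what is
needed; in particular `exists_rad f` may also be used: `f ∣ f1 ^ k`, `f1 ∣ f`, Bezout for `f1`; if `f` is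
squarefree and monic then `f ∣ f1` (`UniqueFactorizationMonoid`, `Squarefree.dvd_of_squarefree_of_mul_dvd`...,
`Squarefree.isRadical`: `f ∣ f1 ^ k → f ∣ f1` (`IsRadical`)), so `f = f1` as both are monic and divide each
other, and there is `a f + b f' = C c`, `c ≠ 0`; over `L` this gives `IsCoprime`).
Then the resultant: `Polynomial.resultant_map_map` (resultant of the images is the image of the
resultant) and `Polynomial.resultant_ne_zero` over the field `L`; `(derivative f).natDegree = d - 1`
in characteristic `0` (`natDegree_derivative_eq`, or `resultant_eq_zero_iff`), so the explicit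
degrees `d`, `d - 1` agree with the default ones. -/

namespace Pool.Agent.H87.SX

open Finset Polynomial Pool.Agent.H87.SA2

theorem res_ne {f : ℤ[X][X]} {d : ℕ} (hf : f.Monic) (hd : f.natDegree = d) (hd1 : 1 ≤ d)
    (hsq : Squarefree f) : f.resultant (derivative f) d (d - 1) ≠ 0 := by
  obtain ⟨f1, k, h1, h2, h3, h4⟩ := rad_aux (FractionRing ℤ[X]) f.natDegree f hf rfl
  have hff1 : f ∣ f1 := hsq.isRadical k f1 h3
  have heq : f = f1 := eq_of_monic_of_associated hf h1 (associated_of_dvd_dvd hff1 h2)
  rw [← heq] at h4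
  have hinj : Function.Injective (algebraMap ℤ[X] (FractionRing ℤ[X])) :=
    IsFractionRing.injective ℤ[X] (FractionRing ℤ[X])
  have hchar : CharZero (FractionRing ℤ[X]) := charZero_of_injective_algebraMap hinj
  intro h0
  have h5 := resultant_map_map f (derivative f) d (d - 1) (algebraMap ℤ[X] (FractionRing ℤ[X]))
  rw [h0, map_zero, ← derivative_map] at h5
  have h6 : (f.map (algebraMap ℤ[X] (FractionRing ℤ[X]))).natDegree = d := by
    rw [hf.natDegree_map, hd]
  have h7 : (derivative (f.map (algebraMap ℤ[X] (FractionRing ℤ[X])))).natDegree = d - 1 := by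
    rw [← h6]
    exact natDegree_derivative _
  apply resultant_ne_zero _ _ h4
  rw [h6, h7]
  exact h5

/-- Bezout identity with explicit bounds -/
theorem exists_bezX {f : ℤ[X][X]} {d m B : ℕ} (hf : Sized f d m B) (hsq : Squarefree f) :
    ∃ (a b : ℤ[X][X]) (c : ℤ[X]), c ≠ 0 ∧ a * f + b * derivative f = C c ∧
      c.natDegree ≤ 2 * d * m ∧ ∀ l, |c.coeff l| ≤ (cR d m B : ℤ) := by
  obtain ⟨p, q, -, -, h⟩ := exists_mul_add_mul_eq_C_resultant (m := d) (n := d - 1) f
    (derivative f) hf.deg.le ((natDegree_derivative_le f).trans (by rw [hf.deg])) (by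
      have := hf.d1
      omega)
  obtain ⟨h1, h2⟩ := res_bounds hf
  exact ⟨p, q, _, res_ne hf.monic hf.deg hf.d1 hsq, by rw [← h]; ring, h1, h2⟩

end Pool.Agent.H87.SX
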