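import Pool.Agent.H87.SX.XLI
import Pool.Agent.H87.SX.XCW
import Pool.Agent.H87.SX.XCM
import Pool.Agent.H87.SX.XRL

/-! # [SX-XST] One step: denominators and size of the next Puiseux coefficients

Proof. Each `y i` is a root of `f.map (tq e 1)` (`h.split`, `eval_prod`). Fix `i`; `cw_rel` gives `l`,
`r0`. Put `w r = fun i => cw f e j l r (y i) ∈ Sg y` (`cw_mem`), `D = q^d`: `D * w r i'` is integral
(`cw_int`), `‖w r i'‖ ≤ W` (`cw_bd`, `W ≥ 1`). `sg_lio` for `w r0` at `i`: `N i ≤ (D W)^d`,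
`N i / (D w r0 i)` integral, `1 ≤ ‖D w r0 i‖ (D W)^d`.
Integrality: `z = coeff j (y i)` is a root of the polynomial `∑_{r ≤ r0} (D w r i) Z^r` with integral
coefficients, so `(D w r0 i) z` is integral (`isIntegral_leadingCoeff_smul` over the ring
`integralClosure ℤ ℂ`, then transitivity `isIntegral_trans`; or directly: multiply the equation by
`(D w r0 i)^(r0-1)`), hence `N i z` is integral.
Size: if `‖z‖ ≤ 1` clear; otherwise divide the equation by `z^(r0-1)`:
`‖w r0 i‖ ‖z‖ ≤ ∑_{r < r0} ‖w r i‖ ≤ d W` and `1 / ‖w r0 i‖ ≤ D (D W)^d`.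
`q' = q * ∏ i, N i ≤ q ((D W)^d)^d`. -/

namespace Pool.Agent.H87.SX

open Finset Polynomial Pool.Agent.H87.SA2

theorem root_integral {n : ℕ} (hn : 1 ≤ n) (a : ℕ → ℂ) (ha : ∀ r ≤ n, IsIntegral ℤ (a r)) (z : ℂ)
    (h : ∑ r ∈ range (n + 1), a r * z ^ r = 0) : IsIntegral ℤ (a n * z) := by
  classical
  by_cases h0 : a n = 0
  · rw [h0, zero_mul]
    exact isIntegral_zero
  let R := integralClosure ℤ ℂ
  let b : ℕ → R := fun r => if hr : r ≤ n then ⟨a r, ha r hr⟩ else 0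
  have hb : ∀ r ≤ n, ((b r : R) : ℂ) = a r := by
    intro r hr
    simp only [b, dif_pos hr]
  let p : R[X] := ∑ r ∈ range (n + 1), C (b r) * X ^ r
  have hpc : p.coeff n = b n := by
    simp only [p, finsetSum_coeff, coeff_C_mul, coeff_X_pow]
    rw [Finset.sum_eq_single n]
    · simp
    · intro r _ hr
      rw [if_neg (Ne.symm hr), mul_zero]
    · intro hn'
      exact absurd (Finset.mem_range.2 (Nat.lt_succ_self n)) hn'
  have hbn : b n ≠ 0 := by
    intro h1
    apply h0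
    rw [← hb n le_rfl, h1]
    rfl
  have hpd : p.natDegree ≤ n := by
    refine natDegree_sum_le_of_forall_le _ _ fun r hr => ?_
    refine (natDegree_C_mul_X_pow_le _ _).trans ?_
    rw [Finset.mem_range] at hr
    omega
  have hpdeg : p.natDegree = n :=
    le_antisymm hpd (le_natDegree_of_ne_zero (by rw [hpc]; exact hbn))
  have hpl : p.leadingCoeff = b n := by rw [Polynomial.leadingCoeff, hpdeg, hpc]
  have hroot : aeval z p = 0 := by
    rw [← h]
    simp only [p, map_sum, map_mul, map_pow, aeval_X, aeval_C]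
    refine Finset.sum_congr rfl fun r hr => ?_
    rw [← hb r (by rw [Finset.mem_range] at hr; omega)]
    rfl
  have h1 := isIntegral_leadingCoeff_smul p z hroot
  rw [hpl] at h1
  have h2 : IsIntegral ℤ (b n • z) := isIntegral_trans _ h1
  have h3 : b n • z = a n * z := by
    rw [← hb n le_rfl]
    rfl
  rw [h3] at h2
  exact h2

theorem root_size {n : ℕ} (hn : 1 ≤ n) (a : ℕ → ℂ) {W : ℝ} (hW : 1 ≤ W)
    (ha : ∀ r < n, ‖a r‖ ≤ W) (z : ℂ) (h : ∑ r ∈ range (n + 1), a r * z ^ r = 0)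
    (hz : 1 < ‖z‖) : ‖a n‖ * ‖z‖ ≤ n * W := by
  have hz0 : (0 : ℝ) < ‖z‖ := by linarith
  rw [Finset.sum_range_succ] at h
  have h1 : a n * z ^ n = - ∑ r ∈ range n, a r * z ^ r := by linear_combination h
  have h2 : ‖a n‖ * ‖z‖ ^ n ≤ n * W * ‖z‖ ^ (n - 1) := by
    rw [← norm_pow, ← norm_mul, h1, norm_neg]
    refine (norm_sum_le _ _).trans ?_
    have h3 : ∀ r ∈ range n, ‖a r * z ^ r‖ ≤ W * ‖z‖ ^ (n - 1) := by
      intro r hr
      rw [Finset.mem_range] at hr
      rw [norm_mul, norm_pow]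
      exact mul_le_mul (ha r hr) (pow_le_pow_right₀ hz.le (by omega)) (by positivity)
        (by linarith)
    refine (Finset.sum_le_card_nsmul _ _ _ h3).trans (le_of_eq ?_)
    rw [Finset.card_range, nsmul_eq_mul]
    ring
  have h3 : ‖z‖ ^ n = ‖z‖ ^ (n - 1) * ‖z‖ := by
    rw [← pow_succ]
    congr 1
    omega
  rw [h3, ← mul_assoc, mul_right_comm] at h2
  exact le_of_mul_le_mul_right h2 (by positivity)

theorem step {f : ℤ[X][X]} {d m B e : ℕ} (hf : Sized f d m B) {y : Fin d → PowerSeries ℂ}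
    (h : Exps f d e y) (j q : ℕ) (hq : 1 ≤ q) {A : ℝ} (hA : 1 ≤ A)
    (hint : ∀ i, ∀ k < j, IsIntegral ℤ ((q : ℂ) * PowerSeries.coeff k (y i)))
    (hbd : ∀ i, ∀ k < j, ‖PowerSeries.coeff k (y i)‖ ≤ A) (W : ℝ)
    (hW : W = (d + 1) * 2 ^ d * ((m + 1) * B) * (j * A + 1) ^ d) :
    ∃ q' : ℕ, 1 ≤ q' ∧ (q' : ℝ) ≤ q * (((q : ℝ) ^ d * W) ^ d) ^ d ∧
      (∀ i, ∀ k < j + 1, IsIntegral ℤ ((q' : ℂ) * PowerSeries.coeff k (y i))) ∧
      ∀ i, ∀ k < j + 1, ‖PowerSeries.coeff k (y i)‖ ≤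
        A + d * W * ((q : ℝ) ^ d * ((q : ℝ) ^ d * W) ^ d) := by
  classical
  have he : 1 ≤ e := h.e1
  have hd1 : 1 ≤ d := hf.d1
  have hA0 : 0 ≤ A := by linarith
  have hW1 : 1 ≤ W := by
    rw [hW]
    have h1 : (1 : ℝ) ≤ (d : ℝ) + 1 := by
      have : (0 : ℝ) ≤ d := Nat.cast_nonneg d
      linarith
    have h2 : (1 : ℝ) ≤ 2 ^ d := one_le_pow₀ (by norm_num)
    have h3 : (1 : ℝ) ≤ ((m : ℝ) + 1) * B := by
      have h4 : (0 : ℝ) ≤ m := Nat.cast_nonneg m
      have h5 : (2 : ℝ) ≤ B := by exact_mod_cast hf.B2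
      nlinarith
    have h4 : (1 : ℝ) ≤ ((j : ℝ) * A + 1) ^ d := by
      refine one_le_pow₀ ?_
      have : (0 : ℝ) ≤ (j : ℝ) * A := by positivity
      linarith
    have h5 := one_le_mul_of_one_le_of_one_le h1 h2
    have h6 := one_le_mul_of_one_le_of_one_le h5 h3
    exact one_le_mul_of_one_le_of_one_le h6 h4
  have hW0 : 0 ≤ W := by linarith
  have hqd : 1 ≤ q ^ d := Nat.one_le_pow _ _ hq
  have hqd' : (1 : ℝ) ≤ (q : ℝ) ^ d := by exact_mod_cast hqd
  set DW : ℝ := ((q : ℝ) ^ d * W) ^ d with hDW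
  have hDW1 : 1 ≤ DW := by
    rw [hDW]
    exact one_le_pow₀ (one_le_mul_of_one_le_of_one_le hqd' hW1)
  have hDW0 : 0 ≤ DW := by linarith
  -- every expansion is a root
  have hroot : ∀ i, (f.map (tq e 1)).eval (y i) = 0 := by
    intro i
    rw [h.split, Polynomial.eval_prod]
    exact Finset.prod_eq_zero (Finset.mem_univ i) (by simp)
  -- the next coefficient
  have hkey : ∀ i, ∃ N : ℕ, 1 ≤ N ∧ (N : ℝ) ≤ DW ∧
      IsIntegral ℤ ((N : ℂ) * PowerSeries.coeff j (y i)) ∧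
      ‖PowerSeries.coeff j (y i)‖ ≤ 1 + d * W * ((q : ℝ) ^ d * DW) := by
    intro i
    obtain ⟨l, r0, hr1, hrd, hne, hrel⟩ := cw_rel hf.monic hf.deg e j (y i) (hroot i)
    have hwint : ∀ r i', IsIntegral ℤ ((q : ℂ) ^ d * cw f e j l r (y i')) := fun r i' =>
      cw_int hf.deg.le e j l r q (y i') (hint i')
    have hwbd : ∀ r i', ‖cw f e j l r (y i')‖ ≤ W := by
      intro r i'
      rw [hW]
      exact cw_bd hf he j l r (y i') hA (hbd i')
    obtain ⟨N, hN1, hN2, hN3, hN4⟩ := sg_lio h (w := fun i' => cw f e j l r0 (y i'))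
      (cw_mem y f e j l r0) (D := q ^ d) hqd
      (fun i' => by
        have := hwint r0 i'
        rw [Nat.cast_pow]
        exact this)
      hW1 (fun i' => hwbd r0 i') i hne
    push_cast at hN2 hN3 hN4
    have hq0 : (q : ℂ) ^ d ≠ 0 := by
      have : q ^ d ≠ 0 := by omega
      exact_mod_cast this
    refine ⟨N, hN1, hN2, ?_, ?_⟩
    · have h1 := root_integral hr1 (fun r => (q : ℂ) ^ d * cw f e j l r (y i))
        (fun r _ => hwint r i) (PowerSeries.coeff j (y i)) (by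
          have h2 : ∑ r ∈ range (r0 + 1), (q : ℂ) ^ d * cw f e j l r (y i) *
              PowerSeries.coeff j (y i) ^ r = (q : ℂ) ^ d * ∑ r ∈ range (r0 + 1),
              cw f e j l r (y i) * PowerSeries.coeff j (y i) ^ r := by
            rw [Finset.mul_sum]
            exact Finset.sum_congr rfl fun r _ => mul_assoc _ _ _
          rw [h2, hrel, mul_zero])
      have h2 := hN3.mul h1
      have h3 : ((N : ℂ) * ((q : ℂ) ^ d * cw f e j l r0 (y i))⁻¹) *
          ((q : ℂ) ^ d * cw f e j l r0 (y i) * PowerSeries.coeff j (y i)) =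
          (N : ℂ) * PowerSeries.coeff j (y i) := by
        have h4 : (q : ℂ) ^ d * cw f e j l r0 (y i) ≠ 0 := mul_ne_zero hq0 hne
        field_simp
      rw [← h3]
      exact h2
    · rcases le_or_gt ‖PowerSeries.coeff j (y i)‖ 1 with hz | hz
      · have h1 : 0 ≤ (d : ℝ) * W * ((q : ℝ) ^ d * DW) := by positivity
        linarith
      · have h1 := root_size hr1 (fun r => cw f e j l r (y i)) hW1 (fun r _ => hwbd r i)
          (PowerSeries.coeff j (y i)) hrel hz
        have h2 : ‖(q : ℂ) ^ d * cw f e j l r0 (y i)‖ = (q : ℝ) ^ d * ‖cw f e j l r0 (y i)‖ := by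
          rw [norm_mul, norm_pow, Complex.norm_natCast]
        rw [h2] at hN4
        have h3 : (r0 : ℝ) * W ≤ d * W := by
          have : (r0 : ℝ) ≤ d := by exact_mod_cast hrd
          exact mul_le_mul_of_nonneg_right this hW0
        have hz0 : 0 ≤ ‖PowerSeries.coeff j (y i)‖ := norm_nonneg _
        calc ‖PowerSeries.coeff j (y i)‖ = ‖PowerSeries.coeff j (y i)‖ * 1 := (mul_one _).symm
          _ ≤ ‖PowerSeries.coeff j (y i)‖ * ((q : ℝ) ^ d * ‖cw f e j l r0 (y i)‖ * DW) :=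
              mul_le_mul_of_nonneg_left hN4 hz0
          _ = (‖cw f e j l r0 (y i)‖ * ‖PowerSeries.coeff j (y i)‖) * ((q : ℝ) ^ d * DW) := by ring
          _ ≤ (d * W) * ((q : ℝ) ^ d * DW) :=
              mul_le_mul_of_nonneg_right (h1.trans h3) (by positivity)
          _ ≤ 1 + d * W * ((q : ℝ) ^ d * DW) := by linarith
  choose N hN1 hN2 hN3 hN4 using hkey
  refine ⟨q * ∏ i, N i, ?_, ?_, ?_, ?_⟩
  · exact Nat.one_le_iff_ne_zero.2 (Nat.mul_ne_zero (by omega)
      (Finset.prod_ne_zero_iff.2 fun i _ => by have := hN1 i; omega))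
  · push_cast
    refine mul_le_mul_of_nonneg_left ?_ (Nat.cast_nonneg q)
    refine (Finset.prod_le_prod (fun i _ => Nat.cast_nonneg _) (fun i _ => hN2 i)).trans ?_
    rw [Finset.prod_const, Finset.card_univ, Fintype.card_fin]
  · intro i k hk
    rcases Nat.lt_succ_iff_lt_or_eq.1 hk with hk | rfl
    · have h1 := (isIntegral_algebraMap (R := ℤ) (A := ℂ) (x := ((∏ i, N i : ℕ) : ℤ))).mul
        (hint i k hk)
      have h2 : (algebraMap ℤ ℂ) ((∏ i, N i : ℕ) : ℤ) * ((q : ℂ) * PowerSeries.coeff k (y i)) =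
          ((q * ∏ i, N i : ℕ) : ℂ) * PowerSeries.coeff k (y i) := by
        push_cast
        ring
      rw [← h2]
      exact h1
    · have h1 := (isIntegral_algebraMap (R := ℤ) (A := ℂ)
        (x := ((q * ∏ i' ∈ Finset.univ.erase i, N i' : ℕ) : ℤ))).mul (hN3 i)
      have h2 : (algebraMap ℤ ℂ) ((q * ∏ i' ∈ Finset.univ.erase i, N i' : ℕ) : ℤ) *
          ((N i : ℂ) * PowerSeries.coeff k (y i)) =
          ((q * ∏ i, N i : ℕ) : ℂ) * PowerSeries.coeff k (y i) := by
        rw [← Finset.mul_prod_erase Finset.univ N (Finset.mem_univ i)]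
        push_cast
        ring
      rw [← h2]
      exact h1
  · intro i k hk
    rcases Nat.lt_succ_iff_lt_or_eq.1 hk with hk | rfl
    · have h1 := hbd i k hk
      have h2 : 0 ≤ (d : ℝ) * W * ((q : ℝ) ^ d * DW) := by positivity
      linarith
    · have h1 := hN4 i
      linarith

end Pool.Agent.H87.SX
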